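import Mathlib
import Pool.Agent.Lib.H44W.W0

/-!
# H3B (MP_443e5f, candidate T, module B): the inverse theorem for class II kernels. Definitions.

All sums over the integers are `tsum`s of finitely supported functions. `ee x = exp (2 pi i x)`.
See `PROOF.md`.
-/

namespace Pool.Agent.H3B

open Finset
open Pool.Agent.H44W (ee TF cut)

noncomputable section

/-- `u` vanishes outside `[-N, N]`. -/
def Sp (N : ℕ) (u : ℤ → ℂ) : Prop := ∀ y : ℤ, u y ≠ 0 → |y| ≤ (N : ℤ)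

/-- `G_d(y) = g(y) conj g(y + d)`. -/
def Gd (g : ℤ → ℂ) (d y : ℤ) : ℂ := g y * (starRingEnd ℂ) (g (y + d))

/-- The modulation `u(y) e(-θ y)`. -/
def tw (θ : ℝ) (u : ℤ → ℂ) (y : ℤ) : ℂ := u y * ee (-(θ * y))

/-- The autocorrelation. -/
def R (u : ℤ → ℂ) (k : ℤ) : ℂ := ∑' y : ℤ, u y * (starRingEnd ℂ) (u (y + k))

/-- `E_m(u)`: the sum over the residue classes modulo `m` of the squares of the sums of `u`. -/
def E (m : ℕ) (u : ℤ → ℂ) : ℝ := ∑ r ∈ range m, ‖∑' v : ℤ, u (r + m * v)‖ ^ 2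

/-- The `a` in `[K, 2K)` with `a + j` in `[K, 2K)`. -/
def Ij (K : ℕ) (j : ℤ) : Finset ℕ :=
  (Ico K (2 * K)).filter (fun a => (K : ℤ) ≤ a + j ∧ (a : ℤ) + j < 2 * K)

/-- The class II kernel `∑ α_a β_b`, `ab = m`, `K ≤ a < 2K`, `M ≤ b < 2M` (as in H18V). -/
def P2 (K M : ℕ) (al be : ℤ → ℂ) (m : ℤ) : ℂ :=
  ∑ p ∈ (Ico (K : ℤ) (2 * K) ×ˢ Ico (M : ℤ) (2 * M)).filter (fun p => p.1 * p.2 = m),
    al p.1 * be p.2

theorem Sp.finite {N : ℕ} {u : ℤ → ℂ} (h : Sp N u) : (Function.support u).Finite := by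
  refine (Set.finite_Icc (-(N : ℤ)) N).subset fun y hy => ?_
  exact abs_le.1 (h y hy)

theorem Sp.summable {N : ℕ} {u : ℤ → ℂ} (h : Sp N u) : Summable u := summable_of_hasFiniteSupport h.finite

theorem Sp.zero {N : ℕ} {u : ℤ → ℂ} (h : Sp N u) {y : ℤ} (hy : (N : ℤ) < |y|) : u y = 0 := by
  by_contra h0
  exact absurd (h y h0) (not_le.2 hy)

theorem Sp.mono {N N' : ℕ} {u : ℤ → ℂ} (h : Sp N u) (hN : N ≤ N') : Sp N' u := fun y hy =>
  (h y hy).trans (by exact_mod_cast hN)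

theorem Sp.mul_left {N : ℕ} {u : ℤ → ℂ} (h : Sp N u) (w : ℤ → ℂ) : Sp N (fun y => w y * u y) :=
  fun y hy => h y (right_ne_zero_of_mul hy)

theorem Sp.mul_right {N : ℕ} {u : ℤ → ℂ} (h : Sp N u) (w : ℤ → ℂ) : Sp N (fun y => u y * w y) :=
  fun y hy => h y (left_ne_zero_of_mul hy)

theorem Sp.Gd {N : ℕ} {g : ℤ → ℂ} (h : Sp N g) (d : ℤ) : Sp N (Gd g d) := h.mul_right _

theorem Sp.tw {N : ℕ} {u : ℤ → ℂ} (h : Sp N u) (θ : ℝ) : Sp N (tw θ u) := h.mul_right _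

theorem Sp.shift {N : ℕ} {u : ℤ → ℂ} (h : Sp N u) (t : ℤ) : Sp (N + t.natAbs) (fun y => u (y + t)) := by
  intro y hy
  have h1 := h (y + t) hy
  have h2 : |y| ≤ |y + t| + |t| := by
    have := abs_sub (y + t) t
    simpa using this
  push_cast
  linarith

theorem Sp.tsum_eq {N : ℕ} {u : ℤ → ℂ} (h : Sp N u) : ∑' y, u y = ∑ y ∈ Icc (-(N : ℤ)) N, u y := by
  refine tsum_eq_sum fun y hy => ?_
  by_contra h0
  exact hy (mem_Icc.2 (abs_le.1 (h y h0)))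

theorem Sp.norm_tsum_le {N : ℕ} {u : ℤ → ℂ} (h : Sp N u) {b : ℝ} (hb : ∀ y, ‖u y‖ ≤ b) :
    ‖∑' y, u y‖ ≤ (2 * N + 1) * b := by
  rw [h.tsum_eq]
  refine (norm_sum_le_of_le _ fun y _ => hb y).trans ?_
  rw [sum_const, Int.card_Icc, nsmul_eq_mul]
  have h1 : (N : ℤ) + 1 - -(N : ℤ) = ((2 * N + 1 : ℕ) : ℤ) := by push_cast; ring
  rw [h1, Int.toNat_natCast]
  push_cast
  exact le_rfl

theorem ee_zero : ee 0 = 1 := by simp [ee]

theorem ee_add (x y : ℝ) : ee (x + y) = ee x * ee y := by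
  unfold ee
  rw [← Complex.exp_add]
  congr 1
  push_cast
  ring

theorem ee_norm (x : ℝ) : ‖ee x‖ = 1 := by
  unfold ee
  have : (2 * Real.pi * x * Complex.I : ℂ) = ((2 * Real.pi * x : ℝ) : ℂ) * Complex.I := by push_cast; ring
  rw [this, Complex.norm_exp_ofReal_mul_I]

theorem ee_conj (x : ℝ) : (starRingEnd ℂ) (ee x) = ee (-x) := by
  unfold ee
  rw [← Complex.exp_conj]
  congr 1
  have h2 : (starRingEnd ℂ) 2 = 2 := by
    have := Complex.conj_ofReal 2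
    exact_mod_cast this
  rw [map_mul, map_mul, map_mul, h2, Complex.conj_ofReal, Complex.conj_ofReal, Complex.conj_I]
  push_cast
  ring

theorem ee_int (k : ℤ) : ee k = 1 := by
  unfold ee
  rw [Complex.exp_eq_one_iff]
  exact ⟨k, by push_cast; ring⟩

theorem tw_norm (θ : ℝ) (u : ℤ → ℂ) (y : ℤ) : ‖tw θ u y‖ = ‖u y‖ := by
  unfold tw
  rw [norm_mul, ee_norm, mul_one]

theorem Gd_norm {g : ℤ → ℂ} (h : ∀ z, ‖g z‖ ≤ 1) (d y : ℤ) : ‖Gd g d y‖ ≤ 1 := by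
  unfold Gd
  rw [norm_mul, RCLike.norm_conj]
  exact mul_le_one₀ (h _) (norm_nonneg _) (h _)

theorem E_nonneg (m : ℕ) (u : ℤ → ℂ) : 0 ≤ E m u := sum_nonneg fun _ _ => sq_nonneg _

theorem cut_Sp (n : ℕ) (g : ℤ → ℂ) : Sp n (cut n g) := by
  intro y hy
  unfold cut at hy
  split_ifs at hy with h
  · rw [mem_Icc] at h
    rw [abs_le]
    omega
  · exact absurd rfl hy

theorem cut_norm {n : ℕ} {g : ℤ → ℂ} (h : ∀ z, ‖g z‖ ≤ 1) (z : ℤ) : ‖cut n g z‖ ≤ 1 := by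
  unfold cut
  split_ifs
  · exact h z
  · simp

end

end Pool.Agent.H3B
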