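import Mathlib
import Pool.Agent.Lib.H3B.Defs

/-! # H3B (MP_443e5f, candidate T, module B), chunk A2 -/

namespace Pool.Agent.H3B

open Finset
open Pool.Agent.H44W (ee TF cut)

/-- Chunk A2a (S/M). The sum over the residue classes modulo m. PROOF. `Int.divModEquiv` (or: both sides are finite sums; the map (r, v) ↦ r + m v from range m × ℤ to ℤ is a
bijection, inverse y ↦ (y mod m, y / m)). Summability: everything has finite support (Sp). -/
theorem tsum_res {N : ℕ} {u : ℤ → ℂ} (h : Sp N u) {m : ℕ} (hm : 0 < m) :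
    ∑' y, u y = ∑ r ∈ range m, ∑' v : ℤ, u (r + m * v) := by
  have hne : NeZero m := ⟨hm.ne'⟩
  have e1 : ∑' y, u y = ∑' p : Fin m × ℤ, u (((Int.divModEquiv m).symm.trans (Equiv.refl ℤ)) (p.2, p.1)) := by
    rw [← Equiv.tsum_eq ((Equiv.prodComm (Fin m) ℤ).trans (Int.divModEquiv m).symm)]
    rfl
  have hs : Summable fun p : Fin m × ℤ => u (((Int.divModEquiv m).symm.trans (Equiv.refl ℤ)) (p.2, p.1)) := by
    have h1 := (Equiv.summable_iff ((Equiv.prodComm (Fin m) ℤ).trans (Int.divModEquiv m).symm)).2 h.summable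
    exact h1
  rw [e1, hs.tsum_prod, tsum_fintype, Finset.sum_range]
  refine Finset.sum_congr rfl fun r _ => tsum_congr fun v => ?_
  congr 1
  simp only [Int.divModEquiv, Equiv.trans_apply, Equiv.refl_apply, Equiv.coe_fn_symm_mk]
  ring

/-- the sum over a range as a sum over `ZMod m` -/
theorem a2_range (m : ℕ) [NeZero m] (F : ZMod m → ℝ) : ∑ r ∈ range m, F (r : ZMod m) = ∑ x, F x := by
  refine Finset.sum_bij' (fun (j : ℕ) _ => (j : ZMod m)) (fun (z : ZMod m) _ => z.val)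
    (fun _ _ => mem_univ _) (fun z _ => mem_range.2 (ZMod.val_lt z)) (fun j hj => ?_)
    (fun z _ => ZMod.natCast_zmod_val z) (fun _ _ => rfl)
  rw [ZMod.val_natCast, Nat.mod_eq_of_lt (mem_range.1 hj)]

/-- the inner sum depends on the residue class only -/
theorem a2_class (m : ℕ) [NeZero m] (u : ℤ → ℂ) (s : ℤ) :
    ‖∑' v : ℤ, u (s + m * v)‖ ^ 2 = ‖∑' v : ℤ, u (((s : ZMod m).val : ℤ) + m * v)‖ ^ 2 := by
  have e1 : ((s : ZMod m).val : ℤ) = s % m := by
    rw [ZMod.val_intCast]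
  have e2 : ∑' v : ℤ, u (s + m * v) = ∑' v : ℤ, u (s % m + m * v) := by
    rw [← Equiv.tsum_eq (Equiv.addRight (s / m)) (fun v => u (s % m + m * v))]
    refine tsum_congr fun v => ?_
    congr 1
    simp only [Equiv.coe_addRight]
    have := Int.emod_add_mul_ediv s m
    linear_combination -this
  rw [e1, e2]

theorem a2_E (m : ℕ) [NeZero m] (u : ℤ → ℂ) (t : ℤ) : E m (fun y => u (y + t)) =
    ∑ x : ZMod m, ‖∑' v : ℤ, u (((x + (t : ZMod m)).val : ℤ) + m * v)‖ ^ 2 := by
  rw [← a2_range]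
  unfold E
  refine Finset.sum_congr rfl fun r _ => ?_
  have e1 : ((r : ZMod m) + (t : ZMod m)) = (((r : ℤ) + t : ℤ) : ZMod m) := by push_cast; rfl
  rw [e1, ← a2_class]
  have e2 : ∀ v : ℤ, (r : ℤ) + m * v + t = (r : ℤ) + t + m * v := fun v => by ring
  simp only [e2]

/-- Chunk A2b (S/M). `E` does not change under translation. PROOF. It suffices to treat t = 1 and t = -1, or: r + t = r' + m s with r' = (r + t) mod m; r ↦ r' is a permutation of range m
and ∑' v, u (r + t + m v) = ∑' v, u (r' + m (v + s)) = ∑' v, u (r' + m v) (Equiv.addRight, tsum_eq). No support condition is needed. -/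
theorem E_shift (m : ℕ) (u : ℤ → ℂ) (t : ℤ) : E m (fun y => u (y + t)) = E m u := by
  rcases Nat.eq_zero_or_pos m with hm | hm
  · subst hm
    simp [E]
  have hne : NeZero m := ⟨hm.ne'⟩
  have h0 : E m u = ∑ x : ZMod m, ‖∑' v : ℤ, u ((x.val : ℤ) + m * v)‖ ^ 2 := by
    have h1 := a2_E m u 0
    simpa using h1
  rw [a2_E, h0]
  exact Equiv.sum_comp (Equiv.addRight (t : ZMod m)) (fun x : ZMod m => ‖∑' v : ℤ, u ((x.val : ℤ) + m * v)‖ ^ 2)

/-- Chunk A2c (S). -/
theorem E_conj (m : ℕ) (u : ℤ → ℂ) : E m (fun y => (starRingEnd ℂ) (u y)) = E m u := by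
  unfold E
  refine Finset.sum_congr rfl fun r _ => ?_
  rw [← Complex.conj_tsum, RCLike.norm_conj]

/-- Chunk A2d (S). -/
theorem E_const (m : ℕ) (u : ℤ → ℂ) {c : ℂ} (hc : ‖c‖ = 1) : E m (fun y => c * u y) = E m u := by
  unfold E
  refine Finset.sum_congr rfl fun r _ => ?_
  rw [tsum_mul_left, norm_mul, hc, one_mul]

end Pool.Agent.H3B
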