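import Mathlib
import Pool.Agent.Lib.H44W.W1
import Pool.Agent.Lib.H3B.Defs

/-! # H3B: definitions for step 0 -/

namespace Pool.Agent.H3B

open Finset
open Pool.Agent.H44W (ee TF cut tII)

noncomputable section

/-- The β with M ≤ 2β + ε < 2M. -/
def SS (M : ℕ) (ε : ℤ) : Finset ℤ := (Ico (0 : ℤ) (2 * M)).filter (fun b => (M : ℤ) ≤ 2 * b + ε ∧ 2 * b + ε < 2 * M)

/-- The part of the form with given `a` and `b = 2β + ε`. -/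
def Tt (M : ℕ) (a ε : ℤ) (be W f g : ℤ → ℂ) : ℂ :=
  ∑ b ∈ SS M ε, be (2 * b + ε) * ∑' x : ℤ, f x * g (a * (2 * b + ε) - x) * W (2 * x - a * (2 * b + ε))

/-- `β_b conj β_{b + 2h}`, `b = 2β + ε`. -/
def BB (M : ℕ) (ε : ℤ) (be : ℤ → ℂ) (h b : ℤ) : ℂ :=
  if b + h ∈ SS M ε then be (2 * b + ε) * (starRingEnd ℂ) (be (2 * (b + h) + ε)) else 0

/-- The inner sum after the first Cauchy-Schwarz inequality. -/
def Zh (M : ℕ) (a ε : ℤ) (be g : ℤ → ℂ) (h w : ℤ) : ℂ :=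
  ∑ b ∈ SS M ε, if (2 : ℤ) ∣ a * (2 * b + ε) - w then
    BB M ε be h b * Gd g (a * (2 * h)) ((a * (2 * b + ε) - w) / 2) else 0

/-- The quantity `val(j, k)` of step 1. -/
def val (g : ℤ → ℂ) (K M : ℕ) (ψ : ℤ → ℝ) (j k : ℤ) : ℂ :=
  ∑ h ∈ Ioo (-(M : ℤ)) M, ee (-(ψ h * j * k)) * ∑ a ∈ Ij K j, R (Gd g (a * (a + j) * k)) (j * (2 * h))

end

end Pool.Agent.H3B
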