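import Mathlib
import Pool.Agent.Lib.H3B.D0

/-! # H3B (MP_443e5f, candidate T, module B), chunk S0A -/

namespace Pool.Agent.H3B

open Finset
open Pool.Agent.H44W (ee TF cut tII)

/-- The inner sum. -/
noncomputable def s0aIn (n : ℕ) (W f g : ℤ → ℂ) (c : ℤ) : ℂ :=
  ∑ x ∈ Icc (1:ℤ) n, cut n f x * cut n g (c - x) * W (2 * x - c)

theorem s0a_tsum (n : ℕ) (W f g : ℤ → ℂ) (c : ℤ) :
    ∑' x : ℤ, cut n f x * cut n g (c - x) * W (2 * x - c) = s0aIn n W f g c := by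
  unfold s0aIn
  refine tsum_eq_sum fun x hx => ?_
  have h : cut n f x = 0 := if_neg hx
  rw [h, zero_mul, zero_mul]

theorem s0a_inner (n : ℕ) (W f g : ℤ → ℂ) (c : ℤ) :
    ∑ x ∈ Icc (1:ℤ) n, ∑ y ∈ Icc (1:ℤ) n, (if c = x + y then f x * g y * W (x - y) else 0) = s0aIn n W f g c := by
  unfold s0aIn
  refine sum_congr rfl fun x hx => ?_
  have h1 : cut n f x = f x := if_pos hx
  have h2 : ∀ y ∈ Icc (1:ℤ) n, (if c = x + y then f x * g y * W (x - y) else 0) =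
      if y = c - x then f x * g y * W (x - y) else 0 := by
    intro y _
    by_cases h : c = x + y
    · rw [if_pos h, if_pos (by omega)]
    · rw [if_neg h, if_neg (by omega)]
  rw [sum_congr rfl h2, sum_ite_eq', h1]
  by_cases h3 : c - x ∈ Icc (1:ℤ) n
  · have h4 : cut n g (c - x) = g (c - x) := if_pos h3
    rw [if_pos h3, h4]
    congr 2
    ring
  · have h4 : cut n g (c - x) = 0 := if_neg h3
    rw [if_neg h3, h4, mul_zero, zero_mul]

theorem s0a_exp (n K M : ℕ) (al be : ℕ → ℂ) (W f g : ℤ → ℂ) :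
    TF n (tII K M al be) W f g = ∑ a ∈ Ico K (2 * K), al a * ∑ b ∈ Ico M (2 * M), be b * s0aIn n W f g ((a * b : ℕ) : ℤ) := by
  unfold TF tII
  have h1 : ∀ x ∈ Icc (1:ℤ) n, ∑ y ∈ Icc (1:ℤ) n, f x * g y *
      (∑ a ∈ Ico K (2 * K), ∑ b ∈ Ico M (2 * M), if ((a * b : ℕ) : ℤ) = x + y then al a * be b else 0) * W (x - y) =
      ∑ a ∈ Ico K (2 * K), ∑ b ∈ Ico M (2 * M), ∑ y ∈ Icc (1:ℤ) n,
        al a * be b * (if ((a * b : ℕ) : ℤ) = x + y then f x * g y * W (x - y) else 0) := by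
    intro x _
    have h2 : ∀ y ∈ Icc (1:ℤ) n, f x * g y *
        (∑ a ∈ Ico K (2 * K), ∑ b ∈ Ico M (2 * M), if ((a * b : ℕ) : ℤ) = x + y then al a * be b else 0) * W (x - y) =
        ∑ a ∈ Ico K (2 * K), ∑ b ∈ Ico M (2 * M),
          al a * be b * (if ((a * b : ℕ) : ℤ) = x + y then f x * g y * W (x - y) else 0) := by
      intro y _
      rw [Finset.mul_sum, Finset.sum_mul]
      refine sum_congr rfl fun a _ => ?_
      rw [Finset.mul_sum, Finset.sum_mul]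
      refine sum_congr rfl fun b _ => ?_
      split_ifs
      · ring
      · ring
    rw [sum_congr rfl h2, Finset.sum_comm]
    refine sum_congr rfl fun a _ => ?_
    rw [Finset.sum_comm]
  rw [sum_congr rfl h1, Finset.sum_comm]
  refine sum_congr rfl fun a _ => ?_
  rw [Finset.sum_comm, Finset.mul_sum]
  refine sum_congr rfl fun b _ => ?_
  rw [← s0a_inner, ← mul_assoc, Finset.mul_sum]
  refine sum_congr rfl fun x _ => ?_
  rw [Finset.mul_sum]

theorem s0a_par0 (M : ℕ) (F : ℤ → ℂ) (ε : ℤ) (hε : 0 ≤ ε ∧ ε < 2) :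
    ∑ b ∈ SS M ε, F (2 * b + ε) = ∑ b ∈ (Ico (M:ℤ) (2 * M)).filter (fun b => b % 2 = ε), F b := by
  refine Finset.sum_nbij' (fun b => 2 * b + ε) (fun b => b / 2) ?_ ?_ ?_ ?_ ?_
  · intro b hb
    unfold SS at hb
    rw [mem_filter, mem_Ico] at hb
    rw [mem_filter, mem_Ico]
    obtain ⟨⟨h1, h2⟩, h3, h4⟩ := hb
    refine ⟨⟨h3, h4⟩, ?_⟩
    omega
  · intro b hb
    unfold SS
    rw [mem_filter, mem_Ico] at hb
    rw [mem_filter, mem_Ico]
    obtain ⟨⟨h1, h2⟩, h3⟩ := hb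
    have hM : (0:ℤ) ≤ M := Int.natCast_nonneg M
    omega
  · intro b hb
    omega
  · intro b hb
    rw [mem_filter] at hb
    omega
  · intro b _
    rfl

theorem s0a_par (M : ℕ) (F : ℤ → ℂ) :
    ∑ b ∈ Ico M (2 * M), F (b:ℤ) = ∑ ε ∈ ({0, 1} : Finset ℤ), ∑ b ∈ SS M ε, F (2 * b + ε) := by
  have h1 : ∑ b ∈ Ico M (2 * M), F (b:ℤ) = ∑ b ∈ Ico (M:ℤ) (2 * M), F b := by
    refine Finset.sum_nbij' (fun b : ℕ => (b:ℤ)) (fun b : ℤ => b.toNat) ?_ ?_ ?_ ?_ ?_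
    · intro b hb
      rw [mem_Ico] at hb ⊢
      omega
    · intro b hb
      rw [mem_Ico] at hb ⊢
      omega
    · intro b _
      exact Int.toNat_natCast b
    · intro b hb
      rw [mem_Ico] at hb
      exact Int.toNat_of_nonneg (by omega)
    · intro b _
      rfl
  rw [h1, Finset.sum_pair (by norm_num), s0a_par0 M F 0 (by norm_num), s0a_par0 M F 1 (by norm_num),
    ← Finset.sum_filter_add_sum_filter_not (Ico (M:ℤ) (2 * M)) (fun b => b % 2 = 0)]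
  congr 1
  refine Finset.sum_congr ?_ fun _ _ => rfl
  refine Finset.filter_congr fun b _ => ?_
  omega

theorem s0a_norm_cut (n : ℕ) (f : ℤ → ℂ) (hf : ∀ x, ‖f x‖ ≤ 1) (x : ℤ) : ‖cut n f x‖ ≤ 1 := by
  unfold cut
  split_ifs
  · exact hf x
  · rw [norm_zero]
    exact zero_le_one

theorem s0a_In_le (n : ℕ) (W f g : ℤ → ℂ) (hW : ∀ x, ‖W x‖ ≤ 1) (hf : ∀ x, ‖f x‖ ≤ 1) (hg : ∀ x, ‖g x‖ ≤ 1) (c : ℤ) :
    ‖s0aIn n W f g c‖ ≤ n := by
  unfold s0aIn
  refine (norm_sum_le_of_le (f := fun x => cut n f x * cut n g (c - x) * W (2 * x - c)) (n := fun _ => (1:ℝ)) _ fun x _ => ?_).trans ?_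
  · rw [norm_mul, norm_mul]
    exact mul_le_one₀ (mul_le_one₀ (s0a_norm_cut n f hf x) (norm_nonneg _) (s0a_norm_cut n g hg _)) (norm_nonneg _) (hW _)
  · simp

/-- Chunk S0Aa (M). PROOF. TF n F W f g = ∑' x, ∑' y of cut n f x * cut n g y * F (x + y) * W (x - y) (or keep the finite sums). Insert the definition of tII, exchange the sums: for given a, b the
sum over x, y in [1, n] with x + y = a b of f x g y W (x - y) is ∑' x, cut n f x * cut n g (a b - x) * W (2 x - a b). b = 2β + ε with ε = b mod 2 gives a bijection of Ico M (2M) with the pairs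
(ε, β), ε in {0, 1}, β in SS M ε. Triangle inequality, |al a| ≤ 1. -/
theorem TF_le_Tt (n K M : ℕ) (al be : ℕ → ℂ) (hal : ∀ a, ‖al a‖ ≤ 1) (W f g : ℤ → ℂ) :
    ‖TF n (tII K M al be) W f g‖ ≤ ∑ ε ∈ ({0, 1} : Finset ℤ), ∑ a ∈ Ico K (2 * K),
      ‖Tt M a ε (fun b => be b.toNat) W (cut n f) (cut n g)‖ := by
  have h1 : ∀ a : ℕ, ∑ b ∈ Ico M (2 * M), be b * s0aIn n W f g ((a * b : ℕ) : ℤ) =
      ∑ ε ∈ ({0, 1} : Finset ℤ), Tt M a ε (fun b => be b.toNat) W (cut n f) (cut n g) := by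
    intro a
    have h2 := s0a_par M (fun b => be b.toNat * s0aIn n W f g ((a:ℤ) * b))
    have h3 : ∑ b ∈ Ico M (2 * M), be b * s0aIn n W f g ((a * b : ℕ) : ℤ) =
        ∑ b ∈ Ico M (2 * M), (fun b : ℤ => be b.toNat * s0aIn n W f g ((a:ℤ) * b)) (b:ℤ) := by
      refine sum_congr rfl fun b _ => ?_
      change _ = be (Int.toNat (b:ℤ)) * s0aIn n W f g ((a:ℤ) * (b:ℤ))
      rw [Int.toNat_natCast, Nat.cast_mul]
    rw [h3, h2]
    refine sum_congr rfl fun ε _ => ?_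
    unfold Tt
    refine sum_congr rfl fun b _ => ?_
    rw [s0a_tsum]
  rw [s0a_exp, Finset.sum_comm]
  refine norm_sum_le_of_le _ fun a _ => ?_
  rw [norm_mul, h1 a]
  exact (mul_le_of_le_one_left (norm_nonneg _) (hal a)).trans (norm_sum_le _ _)

/-- Chunk S0Ab (S/M). PROOF. Trivial bound: for given a, b and x there is at most one y. -/
theorem TF_le (n K M : ℕ) (al be : ℕ → ℂ) (hal : ∀ a, ‖al a‖ ≤ 1) (hbe : ∀ b, ‖be b‖ ≤ 1) (W f g : ℤ → ℂ)
    (hW : ∀ x, ‖W x‖ ≤ 1) (hf : ∀ x, ‖f x‖ ≤ 1) (hg : ∀ x, ‖g x‖ ≤ 1) :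
    ‖TF n (tII K M al be) W f g‖ ≤ K * M * n := by
  rw [s0a_exp]
  have h1 : ∀ a ∈ Ico K (2 * K), ‖al a * ∑ b ∈ Ico M (2 * M), be b * s0aIn n W f g ((a * b : ℕ) : ℤ)‖ ≤ M * n := by
    intro a _
    rw [norm_mul]
    refine (mul_le_of_le_one_left (norm_nonneg _) (hal a)).trans ?_
    have h2 : ∀ b ∈ Ico M (2 * M), ‖be b * s0aIn n W f g ((a * b : ℕ) : ℤ)‖ ≤ n := by
      intro b _
      rw [norm_mul]
      exact (mul_le_of_le_one_left (norm_nonneg _) (hbe b)).trans (s0a_In_le n W f g hW hf hg _)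
    refine (norm_sum_le_of_le _ h2).trans ?_
    rw [Finset.sum_const, Nat.card_Ico, nsmul_eq_mul]
    have e : 2 * M - M = M := by omega
    rw [e]
  refine (norm_sum_le_of_le _ h1).trans ?_
  rw [Finset.sum_const, Nat.card_Ico, nsmul_eq_mul]
  have e : 2 * K - K = K := by omega
  rw [e, mul_assoc]

/-- Chunk S0Ac (S). PROOF. If K M > 2 n then tII (x + y) = 0 because a b ≥ K M > 2 n ≥ x + y. -/
theorem KM_le (n K M : ℕ) (al be : ℕ → ℂ) (W f g : ℤ → ℂ) (h : TF n (tII K M al be) W f g ≠ 0) : K * M ≤ 2 * n := by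
  by_contra hc
  apply h
  rw [not_le] at hc
  unfold TF
  refine sum_eq_zero fun x hx => sum_eq_zero fun y hy => ?_
  have h0 : tII K M al be (x + y) = 0 := by
    unfold tII
    refine sum_eq_zero fun a ha => sum_eq_zero fun b hb => ?_
    rw [mem_Ico] at ha hb
    rw [mem_Icc] at hx hy
    refine if_neg fun he => ?_
    have h1 : K * M ≤ a * b := Nat.mul_le_mul ha.1 hb.1
    have h2 : ((K * M : ℕ) : ℤ) ≤ ((a * b : ℕ) : ℤ) := by exact_mod_cast h1
    have h3 : ((2 * n : ℕ) : ℤ) < ((K * M : ℕ) : ℤ) := by exact_mod_cast hc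
    push_cast at h2 h3 he
    omega
  rw [h0, mul_zero, zero_mul]

end Pool.Agent.H3B
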