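import Mathlib
import Pool.Agent.Lib.H3B.D0

/-! # H3B (MP_443e5f, candidate T, module B), chunk S0B -/

namespace Pool.Agent.H3B

open Finset
open Pool.Agent.H44W (ee TF cut tII)

theorem s0b_SS {M : ℕ} {ε b : ℤ} (hb : b ∈ SS M ε) : (M : ℤ) ≤ 2 * b + ε ∧ 2 * b + ε < 2 * M :=
  (mem_filter.1 hb).2

theorem s0b_A {n M : ℕ} {a ε b : ℤ} (ha : 1 ≤ a) (haM : a * (2 * M) ≤ 8 * n) (hb : b ∈ SS M ε) :
    0 ≤ a * (2 * b + ε) ∧ a * (2 * b + ε) ≤ 8 * n := by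
  obtain ⟨h1, h2⟩ := s0b_SS hb
  constructor
  · exact mul_nonneg (by omega) (by omega)
  · exact (mul_le_mul_of_nonneg_left h2.le (by omega)).trans haM

theorem s0b_re {M : ℕ} {ε : ℤ} (F : ℤ → ℂ) {b : ℤ} (hb : b ∈ SS M ε) :
    ∑ b' ∈ SS M ε, F b' = ∑ h ∈ Ioo (-(M : ℤ)) M, if b + h ∈ SS M ε then F (b + h) else 0 := by
  rw [← sum_filter]
  symm
  refine Finset.sum_nbij' (fun h => b + h) (fun b' => b' - b) ?_ ?_ ?_ ?_ ?_
  · intro h hh
    exact (mem_filter.1 hh).2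
  · intro b' hb'
    have h1 := s0b_SS hb
    have h2 := s0b_SS hb'
    rw [mem_filter, mem_Ioo]
    refine ⟨by constructor <;> omega, ?_⟩
    have h3 : b + (b' - b) = b' := by ring
    rw [h3]
    exact hb'
  · intro h _
    ring
  · intro b' _
    ring
  · intro h _
    rfl

theorem s0b_tsum (A : ℤ) (H : ℤ → ℂ) :
    ∑' x : ℤ, H (2 * x - A) = ∑' w : ℤ, if (2 : ℤ) ∣ A - w then H w else 0 := by
  have hinj : Function.Injective (fun x : ℤ => 2 * x - A) := by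
    intro x y hxy
    simp only at hxy
    omega
  have h1 := hinj.tsum_eq (f := fun w : ℤ => if (2 : ℤ) ∣ A - w then H w else 0) (by
    intro w hw
    rw [Function.mem_support] at hw
    have h2 : (2 : ℤ) ∣ A - w := by
      by_contra h3
      rw [if_neg h3] at hw
      exact hw rfl
    obtain ⟨y, hy⟩ := h2
    refine ⟨A - y, ?_⟩
    simp only
    omega)
  rw [← h1]
  refine tsum_congr fun x => ?_
  have h2 : (2 : ℤ) ∣ A - (2 * x - A) := ⟨A - x, by ring⟩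
  rw [if_pos h2]

/-- One pair `b, b + h`. -/
theorem s0b_pair {n M : ℕ} {a ε : ℤ} (ha : 1 ≤ a) (haM : a * (2 * M) ≤ 8 * n) {W g : ℤ → ℂ}
    (hgs : Sp n g) {b : ℤ} (hb : b ∈ SS M ε) (h : ℤ) :
    ∑ x ∈ Icc (-(9 * n : ℤ)) (9 * n), (g (a * (2 * b + ε) - x) * W (2 * x - a * (2 * b + ε))) *
      (starRingEnd ℂ) (g (a * (2 * (b + h) + ε) - x) * W (2 * x - a * (2 * (b + h) + ε))) =
    ∑ w ∈ Icc (-(10 * n : ℤ)) (10 * n), (W w * (starRingEnd ℂ) (W (w - a * (2 * h)))) *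
      (if (2 : ℤ) ∣ a * (2 * b + ε) - w then Gd g (a * (2 * h)) ((a * (2 * b + ε) - w) / 2) else 0) := by
  obtain ⟨A, hA⟩ : ∃ A : ℤ, A = a * (2 * b + ε) := ⟨_, rfl⟩
  have hA0 := s0b_A ha haM hb
  have hA' : a * (2 * (b + h) + ε) = A + a * (2 * h) := by rw [hA]; ring
  rw [hA', ← hA]
  rw [← hA] at hA0
  have e1 : ∀ x : ℤ, (g (A - x) * W (2 * x - A)) *
      (starRingEnd ℂ) (g (A + a * (2 * h) - x) * W (2 * x - (A + a * (2 * h)))) =
      (fun w : ℤ => (W w * (starRingEnd ℂ) (W (w - a * (2 * h)))) * Gd g (a * (2 * h)) ((A - w) / 2)) (2 * x - A) := by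
    intro x
    have h1 : (A - (2 * x - A)) / 2 = A - x := by omega
    have h2 : A + a * (2 * h) - x = A - x + a * (2 * h) := by ring
    have h3 : 2 * x - (A + a * (2 * h)) = 2 * x - A - a * (2 * h) := by ring
    simp only [h1, h2, h3, Gd, map_mul]
    ring
  have e2 : ∑ x ∈ Icc (-(9 * n : ℤ)) (9 * n), (g (A - x) * W (2 * x - A)) *
      (starRingEnd ℂ) (g (A + a * (2 * h) - x) * W (2 * x - (A + a * (2 * h)))) =
      ∑' x : ℤ, (g (A - x) * W (2 * x - A)) *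
      (starRingEnd ℂ) (g (A + a * (2 * h) - x) * W (2 * x - (A + a * (2 * h)))) := by
    symm
    refine tsum_eq_sum fun x hx => ?_
    have h1 : g (A - x) = 0 := by
      refine hgs.zero ?_
      by_contra h2
      rw [not_lt, abs_le] at h2
      apply hx
      rw [mem_Icc]
      constructor <;> omega
    rw [h1, zero_mul, zero_mul]
  rw [e2, (tsum_congr e1).trans (s0b_tsum A (fun w : ℤ =>
    (W w * (starRingEnd ℂ) (W (w - a * (2 * h)))) * Gd g (a * (2 * h)) ((A - w) / 2)))]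
  rw [tsum_eq_sum (s := Icc (-(10 * n : ℤ)) (10 * n))]
  · refine sum_congr rfl fun w _ => ?_
    split_ifs
    · rfl
    · rw [mul_zero]
  · intro w hw
    split_ifs with h1
    · have h3 : g ((A - w) / 2) = 0 := by
        refine hgs.zero ?_
        by_contra h2
        rw [not_lt, abs_le] at h2
        apply hw
        rw [mem_Icc]
        constructor <;> omega
      unfold Gd
      rw [h3, zero_mul, mul_zero]
    · rfl

/-- Chunk S0B (M). The first two steps: Cauchy-Schwarz in x, expansion. PROOF. Tt = ∑' x, f x * U x with U x = ∑_{b in SS} be(2b+ε) g(a(2b+ε) - x) W(2x - a(2b+ε)) (finite sums; exchange).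
Cauchy-Schwarz: |Tt|² ≤ (∑ |f|²)(∑' x, |U x|²), ∑ |f|² ≤ 2 n + 1 ≤ 3 n. |U x|² = ∑_{b, b'} ..; put b' = b + h (h in Ioo (-M) M: the elements of SS lie in an interval of length less than M), A = a(2b+ε),
y = A - x, w = 2x - A = A - 2y: g(A - x) conj g(A + 2ah - x) = Gd g (2ah) y, W(2x - A) conj W(2x - A - 2ah) = W w conj W(w - 2ah). For given b the map x ↦ w = 2x - A is a bijection of ℤ onto
the w with 2 | A - w, and y = (A - w)/2. So ∑' x, |U x|² = ∑_h ∑' w, W w conj W(w - 2ah) Zh h w ≤ ∑_h ∑_w |Zh h w|, and Zh h w ≠ 0 only if |y| ≤ n for some b, that is |w| ≤ A + 2n ≤ 10 n. -/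
theorem s0_cs1 {n M : ℕ} (hn : 1 ≤ n) {a ε : ℤ} (ha : 1 ≤ a) (haM : a * (2 * M) ≤ 8 * n) (hε : ε = 0 ∨ ε = 1) {be W f g : ℤ → ℂ}
    (hW : ∀ x, ‖W x‖ ≤ 1) (hf : ∀ x, ‖f x‖ ≤ 1) (hfs : Sp n f) (hgs : Sp n g) :
    ‖Tt M a ε be W f g‖ ^ 2 ≤ 3 * n * ∑ h ∈ Ioo (-(M : ℤ)) M, ∑ w ∈ Icc (-(10 * n : ℤ)) (10 * n), ‖Zh M a ε be g h w‖ := by
  classical
  have hnR : (1 : ℝ) ≤ n := by exact_mod_cast hn
  obtain ⟨u, hu⟩ : ∃ u : ℤ → ℤ → ℂ, u = fun b x => g (a * (2 * b + ε) - x) * W (2 * x - a * (2 * b + ε)) := ⟨_, rfl⟩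
  obtain ⟨U, hU⟩ : ∃ U : ℤ → ℂ, U = fun x => ∑ b ∈ SS M ε, be (2 * b + ε) * u b x := ⟨_, rfl⟩
  -- the form as a finite sum
  have hTt : Tt M a ε be W f g = ∑ x ∈ Icc (-(n : ℤ)) n, f x * U x := by
    unfold Tt
    have e1 : ∀ b : ℤ, ∑' x : ℤ, f x * g (a * (2 * b + ε) - x) * W (2 * x - a * (2 * b + ε)) =
        ∑ x ∈ Icc (-(n : ℤ)) n, f x * u b x := by
      intro b
      have h1 : Sp n (fun x => f x * g (a * (2 * b + ε) - x) * W (2 * x - a * (2 * b + ε))) :=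
        (hfs.mul_right _).mul_right _
      rw [h1.tsum_eq]
      refine sum_congr rfl fun x _ => ?_
      rw [hu]
      ring
    simp only [e1, mul_sum]
    rw [sum_comm]
    refine sum_congr rfl fun x _ => ?_
    rw [hU]
    simp only [mul_sum]
    refine sum_congr rfl fun b _ => ?_
    ring
  -- Cauchy-Schwarz
  have hcs : ‖Tt M a ε be W f g‖ ^ 2 ≤ 3 * n * ∑ x ∈ Icc (-(9 * n : ℤ)) (9 * n), ‖U x‖ ^ 2 := by
    rw [hTt]
    have h1 : ‖∑ x ∈ Icc (-(n : ℤ)) n, f x * U x‖ ≤ ∑ x ∈ Icc (-(n : ℤ)) n, ‖f x‖ * ‖U x‖ := by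
      refine norm_sum_le_of_le _ fun x _ => ?_
      rw [norm_mul]
    have h2 := sum_mul_sq_le_sq_mul_sq (Icc (-(n : ℤ)) n) (fun x => ‖f x‖) (fun x => ‖U x‖)
    have h3 : ∑ x ∈ Icc (-(n : ℤ)) n, ‖f x‖ ^ 2 ≤ 3 * n := by
      refine (sum_le_sum (g := fun _ => (1 : ℝ)) fun x _ => ?_).trans ?_
      · exact pow_le_one₀ (norm_nonneg _) (hf x)
      · rw [sum_const, Int.card_Icc, nsmul_eq_mul, mul_one]
        have h4 : (n : ℤ) + 1 - -(n : ℤ) = ((2 * n + 1 : ℕ) : ℤ) := by push_cast; ring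
        rw [h4, Int.toNat_natCast]
        push_cast
        linarith
    have h5 : ∑ x ∈ Icc (-(n : ℤ)) n, ‖U x‖ ^ 2 ≤ ∑ x ∈ Icc (-(9 * n : ℤ)) (9 * n), ‖U x‖ ^ 2 := by
      refine sum_le_sum_of_subset_of_nonneg ?_ fun x _ _ => sq_nonneg _
      intro x hx
      rw [mem_Icc] at hx ⊢
      constructor <;> omega
    calc _ ≤ (∑ x ∈ Icc (-(n : ℤ)) n, ‖f x‖ * ‖U x‖) ^ 2 := pow_le_pow_left₀ (norm_nonneg _) h1 2
      _ ≤ _ := h2
      _ ≤ _ := mul_le_mul h3 h5 (sum_nonneg fun x _ => sq_nonneg _) (by positivity)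
  refine hcs.trans (mul_le_mul_of_nonneg_left ?_ (by positivity))
  -- expansion
  have hexp : ((∑ x ∈ Icc (-(9 * n : ℤ)) (9 * n), ‖U x‖ ^ 2 : ℝ) : ℂ) =
      ∑ h ∈ Ioo (-(M : ℤ)) M, ∑ w ∈ Icc (-(10 * n : ℤ)) (10 * n),
        (W w * (starRingEnd ℂ) (W (w - a * (2 * h)))) * Zh M a ε be g h w := by
    rw [Complex.ofReal_sum]
    have e1 : ∀ x : ℤ, ((‖U x‖ ^ 2 : ℝ) : ℂ) = ∑ b ∈ SS M ε, ∑ b' ∈ SS M ε,
        (be (2 * b + ε) * (starRingEnd ℂ) (be (2 * b' + ε))) * (u b x * (starRingEnd ℂ) (u b' x)) := by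
      intro x
      rw [← Complex.normSq_eq_norm_sq, ← Complex.mul_conj, hU]
      simp only [map_sum, sum_mul_sum, map_mul]
      refine sum_congr rfl fun b _ => sum_congr rfl fun b' _ => ?_
      ring
    simp only [e1]
    rw [sum_comm]
    have e2 : ∀ b ∈ SS M ε, ∑ x ∈ Icc (-(9 * n : ℤ)) (9 * n), ∑ b' ∈ SS M ε,
        (be (2 * b + ε) * (starRingEnd ℂ) (be (2 * b' + ε))) * (u b x * (starRingEnd ℂ) (u b' x)) =
        ∑ h ∈ Ioo (-(M : ℤ)) M, ∑ w ∈ Icc (-(10 * n : ℤ)) (10 * n),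
          (W w * (starRingEnd ℂ) (W (w - a * (2 * h)))) *
          (if (2 : ℤ) ∣ a * (2 * b + ε) - w then BB M ε be h b * Gd g (a * (2 * h)) ((a * (2 * b + ε) - w) / 2) else 0) := by
      intro b hb
      rw [sum_comm]
      rw [s0b_re (fun b' => ∑ x ∈ Icc (-(9 * n : ℤ)) (9 * n),
        (be (2 * b + ε) * (starRingEnd ℂ) (be (2 * b' + ε))) * (u b x * (starRingEnd ℂ) (u b' x))) hb]
      refine sum_congr rfl fun h _ => ?_
      unfold BB
      by_cases hh : b + h ∈ SS M ε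
      · simp only [if_pos hh]
        rw [← mul_sum, hu]
        dsimp only
        rw [s0b_pair ha haM hgs hb h, mul_sum]
        refine sum_congr rfl fun w _ => ?_
        split_ifs
        · ring
        · ring
      · simp only [if_neg hh, zero_mul, ite_self, mul_zero, sum_const_zero]
    rw [sum_congr rfl e2, sum_comm]
    refine sum_congr rfl fun h _ => ?_
    rw [sum_comm]
    refine sum_congr rfl fun w _ => ?_
    unfold Zh
    rw [mul_sum]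
  have hnorm : (∑ x ∈ Icc (-(9 * n : ℤ)) (9 * n), ‖U x‖ ^ 2 : ℝ) =
      ‖((∑ x ∈ Icc (-(9 * n : ℤ)) (9 * n), ‖U x‖ ^ 2 : ℝ) : ℂ)‖ := by
    rw [Complex.norm_real, Real.norm_of_nonneg (sum_nonneg fun x _ => sq_nonneg _)]
  rw [hnorm, hexp]
  refine norm_sum_le_of_le _ fun h _ => norm_sum_le_of_le _ fun w _ => ?_
  rw [norm_mul, norm_mul, RCLike.norm_conj]
  exact mul_le_of_le_one_left (norm_nonneg _) (mul_le_one₀ (hW _) (norm_nonneg _) (hW _))

end Pool.Agent.H3B
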