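import Mathlib
import Pool.Agent.Lib.H3B.D0

/-! # H3B (MP_443e5f, candidate T, module B), chunk S0C -/

namespace Pool.Agent.H3B

open Finset
open Pool.Agent.H44W (ee TF cut tII)

/-- `G((A - w)/2)` if `2 ∣ A - w`, else `0`; `A = a (2 b + ε)`. -/
noncomputable def s0cz (a ε : ℤ) (G : ℤ → ℂ) (b w : ℤ) : ℂ :=
  if (2 : ℤ) ∣ a * (2 * b + ε) - w then G ((a * (2 * b + ε) - w) / 2) else 0

theorem s0c_fin {N : ℕ} {G : ℤ → ℂ} (hG : Sp N G) (a ε b : ℤ) : (Function.support (s0cz a ε G b)).Finite := by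
  refine (hG.finite.image (fun y => a * (2 * b + ε) - 2 * y)).subset ?_
  intro w hw
  rw [Function.mem_support] at hw
  unfold s0cz at hw
  split_ifs at hw with h
  · refine ⟨(a * (2 * b + ε) - w) / 2, hw, ?_⟩
    have h1 := Int.mul_ediv_cancel' h
    simp only
    linarith
  · exact absurd rfl hw

theorem s0c_R (G : ℤ → ℂ) (a ε b b' : ℤ) :
    ∑' w : ℤ, s0cz a ε G b w * (starRingEnd ℂ) (s0cz a ε G b' w) = R G (a * (b' - b)) := by
  have hinj : Function.Injective (fun y : ℤ => a * (2 * b + ε) - 2 * y) := by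
    intro x y h
    simp only at h
    linarith
  have hsup : Function.support (fun w : ℤ => s0cz a ε G b w * (starRingEnd ℂ) (s0cz a ε G b' w)) ⊆
      Set.range (fun y : ℤ => a * (2 * b + ε) - 2 * y) := by
    intro w hw
    rw [Function.mem_support] at hw
    have h1 := left_ne_zero_of_mul hw
    unfold s0cz at h1
    split_ifs at h1 with h
    · refine ⟨(a * (2 * b + ε) - w) / 2, ?_⟩
      have h2 := Int.mul_ediv_cancel' h
      simp only
      linarith
    · exact absurd rfl h1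
  rw [← hinj.tsum_eq hsup]
  unfold R
  refine tsum_congr fun y => ?_
  unfold s0cz
  have e1 : a * (2 * b + ε) - (a * (2 * b + ε) - 2 * y) = 2 * y := by ring
  have e2 : a * (2 * b' + ε) - (a * (2 * b + ε) - 2 * y) = 2 * (y + a * (b' - b)) := by ring
  rw [e1, e2, if_pos (Dvd.intro _ rfl), if_pos (Dvd.intro _ rfl), Int.mul_ediv_cancel_left _ two_ne_zero,
    Int.mul_ediv_cancel_left _ two_ne_zero]

theorem s0c_Zh (M : ℕ) (a ε : ℤ) (be g : ℤ → ℂ) (h w : ℤ) :
    Zh M a ε be g h w = ∑ b ∈ SS M ε, BB M ε be h b * s0cz a ε (Gd g (a * (2 * h))) b w := by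
  unfold Zh s0cz
  refine Finset.sum_congr rfl fun b _ => ?_
  split_ifs
  · rfl
  · rw [mul_zero]

/-- Chunk S0C (M). PROOF. ∑_w |Zh h w|² over all integers w (finitely many are not zero) is ∑_{b, b' in SS} BB b conj BB b' ∑_w [2 | A - w] G((A - w)/2) conj G((A' - w)/2), G = Gd g (a(2h)),
A = a(2b+ε), A' = a(2b'+ε) = A + 2a(b' - b), so 2 | A - w iff 2 | A' - w and (A' - w)/2 = y + a(b' - b) for y = (A - w)/2; y runs over all integers: R G (a (b' - b)). The finite sum over w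
is at most the full sum (terms ≥ 0). -/
theorem s0_exp {n M : ℕ} {a ε : ℤ} {be g : ℤ → ℂ} (hgs : Sp n g) (h : ℤ) :
    ∑ w ∈ Icc (-(10 * n : ℤ)) (10 * n), ‖Zh M a ε be g h w‖ ^ 2 ≤
      (∑ b ∈ SS M ε, ∑ b' ∈ SS M ε, BB M ε be h b * (starRingEnd ℂ) (BB M ε be h b') *
        R (Gd g (a * (2 * h))) (a * (b' - b))).re := by
  obtain ⟨G, hG⟩ : ∃ G : ℤ → ℂ, G = Gd g (a * (2 * h)) := ⟨_, rfl⟩
  have hGs : Sp n G := by rw [hG]; exact hgs.Gd _
  have hterm : ∀ b b' : ℤ, Summable (fun w : ℤ => s0cz a ε G b w * (starRingEnd ℂ) (s0cz a ε G b' w)) := by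
    intro b b'
    refine summable_of_hasFiniteSupport ?_
    exact (s0c_fin hGs a ε b).subset fun w hw => left_ne_zero_of_mul hw
  have hexp : ∀ w : ℤ, ((‖Zh M a ε be g h w‖ ^ 2 : ℝ) : ℂ) = ∑ b ∈ SS M ε, ∑ b' ∈ SS M ε,
      BB M ε be h b * (starRingEnd ℂ) (BB M ε be h b') * (s0cz a ε G b w * (starRingEnd ℂ) (s0cz a ε G b' w)) := by
    intro w
    rw [← Complex.normSq_eq_norm_sq, ← Complex.mul_conj, s0c_Zh, ← hG, map_sum, Finset.sum_mul_sum]
    refine Finset.sum_congr rfl fun b _ => Finset.sum_congr rfl fun b' _ => ?_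
    rw [map_mul]
    ring
  have hsum2 : ∀ b b' : ℤ, Summable (fun w : ℤ => BB M ε be h b * (starRingEnd ℂ) (BB M ε be h b') *
      (s0cz a ε G b w * (starRingEnd ℂ) (s0cz a ε G b' w))) := fun b b' => (hterm b b').mul_left _
  have hsumC : Summable (fun w : ℤ => ((‖Zh M a ε be g h w‖ ^ 2 : ℝ) : ℂ)) := by
    have h1 : (fun w : ℤ => ((‖Zh M a ε be g h w‖ ^ 2 : ℝ) : ℂ)) = fun w : ℤ => ∑ b ∈ SS M ε, ∑ b' ∈ SS M ε,
      BB M ε be h b * (starRingEnd ℂ) (BB M ε be h b') * (s0cz a ε G b w * (starRingEnd ℂ) (s0cz a ε G b' w)) :=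
      funext hexp
    rw [h1]
    exact summable_sum fun b _ => summable_sum fun b' _ => hsum2 b b'
  have hsumR : Summable (fun w : ℤ => ‖Zh M a ε be g h w‖ ^ 2) := Complex.summable_ofReal.1 hsumC
  have htot : ((∑' w : ℤ, ‖Zh M a ε be g h w‖ ^ 2 : ℝ) : ℂ) = ∑ b ∈ SS M ε, ∑ b' ∈ SS M ε,
      BB M ε be h b * (starRingEnd ℂ) (BB M ε be h b') * R G (a * (b' - b)) := by
    rw [Complex.ofReal_tsum, tsum_congr hexp,
      Summable.tsum_finsetSum (fun b _ => summable_sum fun b' _ => hsum2 b b')]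
    refine Finset.sum_congr rfl fun b _ => ?_
    rw [Summable.tsum_finsetSum (fun b' _ => hsum2 b b')]
    refine Finset.sum_congr rfl fun b' _ => ?_
    rw [tsum_mul_left, s0c_R]
  rw [← hG, ← htot, Complex.ofReal_re]
  exact hsumR.sum_le_tsum _ fun _ _ => sq_nonneg _

end Pool.Agent.H3B
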