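import Mathlib
import Pool.Agent.Lib.H3B.S0B
import Pool.Agent.Lib.H3B.S0C

/-! # H3B (MP_443e5f, candidate T, module B), chunk S0D -/

namespace Pool.Agent.H3B

open Finset
open Pool.Agent.H44W (ee TF cut tII)

/-- Chunk S0D (S/M). PROOF. s0_cs1, then Cauchy-Schwarz over the at most 2M · 21n pairs (h, w), then s0_exp: ‖Tt‖⁴ ≤ 9 n² · 42 n M · ∑ = 378 n³ M ∑. -/
theorem s0_four {n M : ℕ} (hn : 1 ≤ n) {a ε : ℤ} (ha : 1 ≤ a) (haM : a * (2 * M) ≤ 8 * n) (hε : ε = 0 ∨ ε = 1) {be W f g : ℤ → ℂ}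
    (hW : ∀ x, ‖W x‖ ≤ 1) (hf : ∀ x, ‖f x‖ ≤ 1) (hfs : Sp n f) (hgs : Sp n g) :
    ‖Tt M a ε be W f g‖ ^ 4 ≤ 400 * n ^ 3 * M * ∑ h ∈ Ioo (-(M : ℤ)) M,
      (∑ b ∈ SS M ε, ∑ b' ∈ SS M ε, BB M ε be h b * (starRingEnd ℂ) (BB M ε be h b') *
        R (Gd g (a * (2 * h))) (a * (b' - b))).re := by
  set F : ℤ → ℤ → ℝ := fun h w => ‖Zh M a ε be g h w‖ with hF
  have h1 := s0_cs1 hn ha haM hε (be := be) hW hf hfs hgs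
  have h2 : (∑ h ∈ Ioo (-(M : ℤ)) M, ∑ w ∈ Icc (-(10 * n : ℤ)) (10 * n), F h w) ^ 2 ≤
      ((2 * M : ℝ) * (21 * n)) * ∑ h ∈ Ioo (-(M : ℤ)) M, ∑ w ∈ Icc (-(10 * n : ℤ)) (10 * n), F h w ^ 2 := by
    rw [← sum_product', ← sum_product' (f := fun h w => F h w ^ 2)]
    refine (sq_sum_le_card_mul_sum_sq).trans ?_
    refine mul_le_mul_of_nonneg_right ?_ (sum_nonneg fun _ _ => sq_nonneg _)
    rw [card_product, Int.card_Ioo, Int.card_Icc, Nat.cast_mul]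
    have h3 : (((M : ℤ) - -(M : ℤ) - 1).toNat : ℝ) ≤ 2 * M := by
      have : ((M : ℤ) - -(M : ℤ) - 1).toNat ≤ 2 * M := by omega
      exact_mod_cast this
    have h4 : (((10 * n : ℤ) + 1 - -(10 * n : ℤ)).toNat : ℝ) ≤ 21 * n := by
      have : ((10 * n : ℤ) + 1 - -(10 * n : ℤ)).toNat ≤ 21 * n := by omega
      exact_mod_cast this
    exact mul_le_mul h3 h4 (Nat.cast_nonneg _) (by positivity)
  have h5 : ∑ h ∈ Ioo (-(M : ℤ)) M, ∑ w ∈ Icc (-(10 * n : ℤ)) (10 * n), F h w ^ 2 ≤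
      ∑ h ∈ Ioo (-(M : ℤ)) M,
      (∑ b ∈ SS M ε, ∑ b' ∈ SS M ε, BB M ε be h b * (starRingEnd ℂ) (BB M ε be h b') *
        R (Gd g (a * (2 * h))) (a * (b' - b))).re := sum_le_sum fun h _ => s0_exp hgs h
  set Y : ℝ := ∑ h ∈ Ioo (-(M : ℤ)) M,
      (∑ b ∈ SS M ε, ∑ b' ∈ SS M ε, BB M ε be h b * (starRingEnd ℂ) (BB M ε be h b') *
        R (Gd g (a * (2 * h))) (a * (b' - b))).re with hY
  set X : ℝ := ∑ h ∈ Ioo (-(M : ℤ)) M, ∑ w ∈ Icc (-(10 * n : ℤ)) (10 * n), F h w with hX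
  set X2 : ℝ := ∑ h ∈ Ioo (-(M : ℤ)) M, ∑ w ∈ Icc (-(10 * n : ℤ)) (10 * n), F h w ^ 2 with hX2
  have hX20 : 0 ≤ X2 := sum_nonneg fun _ _ => sum_nonneg fun _ _ => sq_nonneg _
  have h6 : ‖Tt M a ε be W f g‖ ^ 4 = (‖Tt M a ε be W f g‖ ^ 2) ^ 2 := by ring
  have hn0 : (0 : ℝ) ≤ n := Nat.cast_nonneg _
  have hM0 : (0 : ℝ) ≤ M := Nat.cast_nonneg _
  calc ‖Tt M a ε be W f g‖ ^ 4 = (‖Tt M a ε be W f g‖ ^ 2) ^ 2 := h6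
    _ ≤ (3 * n * X) ^ 2 := pow_le_pow_left₀ (sq_nonneg _) h1 2
    _ = 9 * n ^ 2 * X ^ 2 := by ring
    _ ≤ 9 * n ^ 2 * (((2 * M : ℝ) * (21 * n)) * X2) := mul_le_mul_of_nonneg_left h2 (by positivity)
    _ = 378 * n ^ 3 * M * X2 := by ring
    _ ≤ 400 * n ^ 3 * M * Y := by
      refine mul_le_mul ?_ h5 hX20 (by positivity)
      have : (0 : ℝ) ≤ n ^ 3 * M := by positivity
      linarith

end Pool.Agent.H3B
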