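import Mathlib
import Pool.Agent.Lib.H3B.Defs

/-! # H3B (MP_443e5f, candidate T, module B), chunk TP -/

namespace Pool.Agent.H3B

open Finset
open Pool.Agent.H44W (ee TF cut)

theorem tp_pow (x : ℝ) (i : ℕ) : ee (i * x) = ee x ^ i := by
  induction i with
  | zero => simp [ee_zero]
  | succ i ih =>
    rw [pow_succ, ← ih, ← ee_add]
    congr 1
    push_cast
    ring

/-- orthogonality -/
theorem tp_orth (Q : ℕ) (hQ : 0 < Q) (t : ℤ) (ht : |t| < Q) :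
    ∑ i ∈ range Q, ee ((i : ℝ) / Q * t) = if t = 0 then (Q : ℂ) else 0 := by
  have hQ0 : (Q : ℝ) ≠ 0 := by exact_mod_cast hQ.ne'
  have e1 : ∀ i : ℕ, ee ((i : ℝ) / Q * t) = ee (t / Q) ^ i := by
    intro i
    rw [← tp_pow]
    congr 1
    ring
  rw [Finset.sum_congr rfl fun i _ => e1 i]
  split_ifs with h
  · rw [h]
    simp [ee_zero]
  · have h1 : ee ((t : ℝ) / Q) ≠ 1 := by
      intro h2
      unfold ee at h2
      rw [Complex.exp_eq_one_iff] at h2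
      obtain ⟨k, hk⟩ := h2
      have h3 : ((t : ℝ) / Q : ℝ) = k := by
        have h4 : (2 * Real.pi * Complex.I : ℂ) ≠ 0 := by
          have hpi : (Real.pi : ℂ) ≠ 0 := by exact_mod_cast Real.pi_ne_zero
          exact mul_ne_zero (mul_ne_zero two_ne_zero hpi) Complex.I_ne_zero
        have h5 : (((t : ℝ) / Q : ℝ) : ℂ) * (2 * Real.pi * Complex.I) = k * (2 * Real.pi * Complex.I) := by
          rw [← hk]
          ring
        have h6 := mul_right_cancel₀ h4 h5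
        exact_mod_cast h6
      rw [div_eq_iff hQ0] at h3
      have h4 : t = k * Q := by exact_mod_cast h3
      rw [h4, abs_mul, Nat.abs_cast] at ht
      have h5 : |k| < 1 := by
        by_contra h6
        have h7 : 1 ≤ |k| := not_lt.1 h6
        nlinarith
      have h6 : k = 0 := Int.abs_lt_one_iff.1 h5
      rw [h6, zero_mul] at h4
      exact h h4
    rw [geom_sum_eq h1, ← tp_pow]
    have e2 : (Q : ℝ) * ((t : ℝ) / Q) = t := by field_simp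
    rw [e2, ee_int, sub_self, zero_div]

/-- Parseval -/
theorem tp_pars (Q : ℕ) (hQ : 0 < Q) (S : Finset ℤ) (B : ℤ → ℂ) (hS : ∀ b ∈ S, ∀ b' ∈ S, |b' - b| < (Q : ℤ)) :
    ∑ i ∈ range Q, ‖∑ b ∈ S, B b * ee ((i : ℝ) / Q * b)‖ ^ 2 = Q * ∑ b ∈ S, ‖B b‖ ^ 2 := by
  have e0 : ((∑ i ∈ range Q, ‖∑ b ∈ S, B b * ee ((i : ℝ) / Q * b)‖ ^ 2 : ℝ) : ℂ) =
      ((Q * ∑ b ∈ S, ‖B b‖ ^ 2 : ℝ) : ℂ) := by
    rw [Complex.ofReal_sum]
    have e1 : ∀ i ∈ range Q, ((‖∑ b ∈ S, B b * ee ((i : ℝ) / Q * b)‖ ^ 2 : ℝ) : ℂ) =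
        ∑ b' ∈ S, ∑ b ∈ S, (B b' * (starRingEnd ℂ) (B b)) * ee ((i : ℝ) / Q * ((b' - b : ℤ) : ℝ)) := by
      intro i _
      rw [← Complex.normSq_eq_norm_sq, ← Complex.mul_conj, map_sum, Finset.sum_mul_sum]
      refine Finset.sum_congr rfl fun b' _ => Finset.sum_congr rfl fun b _ => ?_
      rw [map_mul, ee_conj]
      have e2 : ee ((i : ℝ) / Q * ((b' - b : ℤ) : ℝ)) = ee ((i : ℝ) / Q * b') * ee (-((i : ℝ) / Q * b)) := by
        rw [← ee_add]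
        congr 1
        push_cast
        ring
      rw [e2]
      ring
    rw [Finset.sum_congr rfl e1, Finset.sum_comm]
    have e3 : ∀ b' ∈ S, ∑ i ∈ range Q, ∑ b ∈ S, (B b' * (starRingEnd ℂ) (B b)) *
        ee ((i : ℝ) / Q * ((b' - b : ℤ) : ℝ)) = Q * (B b' * (starRingEnd ℂ) (B b')) := by
      intro b' hb'
      rw [Finset.sum_comm]
      have e4 : ∀ b ∈ S, ∑ i ∈ range Q, (B b' * (starRingEnd ℂ) (B b)) *
          ee ((i : ℝ) / Q * ((b' - b : ℤ) : ℝ)) = if b = b' then Q * (B b' * (starRingEnd ℂ) (B b')) else 0 := by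
        intro b hb
        rw [← Finset.mul_sum, tp_orth Q hQ (b' - b) (hS b hb b' hb')]
        by_cases h : b = b'
        · rw [if_pos (sub_eq_zero.2 h.symm), if_pos h, h]
          ring
        · rw [if_neg (fun h' => h (sub_eq_zero.1 h').symm), if_neg h, mul_zero]
      rw [Finset.sum_congr rfl e4, Finset.sum_ite_eq' S b', if_pos hb']
    rw [Finset.sum_congr rfl e3, ← Finset.mul_sum]
    push_cast
    congr 1
    refine Finset.sum_congr rfl fun b _ => ?_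
    rw [Complex.mul_conj, Complex.normSq_eq_norm_sq]
    push_cast
    rfl
  exact_mod_cast e0

/-- inversion -/
theorem tp_inv (Q : ℕ) (hQ : 0 < Q) {N : ℕ} {ρ : ℤ → ℂ} (hρ : ∀ l, l ∉ Icc (-(N : ℤ)) N → ρ l = 0) (En : ℝ → ℝ)
    (hexp : ∀ φ, ((En φ : ℝ) : ℂ) = ∑ l ∈ Icc (-(N : ℤ)) N, ρ l * ee (φ * l)) (h : ℤ)
    (hh : ∀ l ∈ Icc (-(N : ℤ)) N, |l - h| < (Q : ℤ)) :
    ∑ i ∈ range Q, ((En ((i : ℝ) / Q) : ℝ) : ℂ) * ee (-((i : ℝ) / Q * h)) = Q * ρ h := by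
  have e1 : ∀ i ∈ range Q, ((En ((i : ℝ) / Q) : ℝ) : ℂ) * ee (-((i : ℝ) / Q * h)) =
      ∑ l ∈ Icc (-(N : ℤ)) N, ρ l * ee ((i : ℝ) / Q * ((l - h : ℤ) : ℝ)) := by
    intro i _
    rw [hexp, Finset.sum_mul]
    refine Finset.sum_congr rfl fun l _ => ?_
    rw [mul_assoc, ← ee_add]
    congr 2
    push_cast
    ring
  rw [Finset.sum_congr rfl e1, Finset.sum_comm]
  have e2 : ∀ l ∈ Icc (-(N : ℤ)) N, ∑ i ∈ range Q, ρ l * ee ((i : ℝ) / Q * ((l - h : ℤ) : ℝ)) =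
      if l = h then Q * ρ h else 0 := by
    intro l hl
    rw [← Finset.mul_sum, tp_orth Q hQ (l - h) (hh l hl)]
    by_cases h1 : l = h
    · rw [if_pos (sub_eq_zero.2 h1), if_pos h1, h1]
      ring
    · rw [if_neg (fun h' => h1 (sub_eq_zero.1 h')), if_neg h1, mul_zero]
  rw [Finset.sum_congr rfl e2, Finset.sum_ite_eq']
  split_ifs with h3
  · rfl
  · rw [hρ h h3, mul_zero]

/-- an upper bound for the elements -/
theorem tp_size (T : Finset ℤ) (h : ℤ) (hh : h ∈ T) : |h| ≤ ((∑ x ∈ T, x.natAbs : ℕ) : ℤ) := by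
  have h1 : h.natAbs ≤ ∑ x ∈ T, x.natAbs := Finset.single_le_sum (f := fun x : ℤ => x.natAbs) (fun _ _ => Nat.zero_le _) hh
  have h2 : |h| = (h.natAbs : ℤ) := Int.abs_eq_natAbs h
  rw [h2]
  exact_mod_cast h1

/-- Chunk TP1 (M). PROOF. Choose Q = 2 N + 1 + (bound for the elements of T) large: Q greater than |l - h| for all l in Icc (-N) N and h in T or in Icc (-N) N. Orthogonality:
∑_{i < Q} ee (i t / Q) = Q if Q divides t, else 0 (geometric sum); so ρ h = (1/Q) ∑_i En (i/Q) ee (-i h/Q) for h in T (both sides 0 if h is not in Icc (-N) N).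
∑_{h in T} c h ρ h = (1/Q) ∑_i En(i/Q) C_i, C_i = ∑_{h in T} c h ee (-i h/Q). |C_i| ≤ η L + |C_i|²/(η L). (1/Q) ∑_i En (i/Q) = ρ 0 (so ρ 0 is real, equal to its norm);
(1/Q) ∑_i |C_i|² = ∑_{h in T} |c h|² ≤ L (distinct elements of T are distinct modulo Q). Take φ = i/Q with En maximal (exists_max_image on range Q): the sum is at most
η L ρ 0 + En φ (1/(η L)) L. -/
theorem TP1 {N : ℕ} {ρ : ℤ → ℂ} (hρ : ∀ l, l ∉ Icc (-(N : ℤ)) N → ρ l = 0) (En : ℝ → ℝ) (hE : ∀ φ, 0 ≤ En φ)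
    (hexp : ∀ φ, ((En φ : ℝ) : ℂ) = ∑ l ∈ Icc (-(N : ℤ)) N, ρ l * ee (φ * l)) (T : Finset ℤ) (c : ℤ → ℂ) (hc : ∀ h, ‖c h‖ ≤ 1)
    {η L : ℝ} (hη : 0 < η) (hL0 : 0 < L) (hL : (T.card : ℝ) ≤ L) :
    ∃ φ : ℝ, ‖∑ h ∈ T, c h * ρ h‖ ≤ η * L * ‖ρ 0‖ + En φ / η := by
  obtain ⟨Q, hQd⟩ : ∃ Q : ℕ, Q = 2 * N + 1 + 2 * ∑ x ∈ T, x.natAbs := ⟨_, rfl⟩
  have hQ : 0 < Q := by omega
  have hQR : (0 : ℝ) < Q := by exact_mod_cast hQ
  have hT : ∀ h ∈ T, ∀ l ∈ Icc (-(N : ℤ)) N, |l - h| < (Q : ℤ) := by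
    intro h hh l hl
    have h1 := tp_size T h hh
    rw [mem_Icc] at hl
    rw [abs_le] at h1
    rw [abs_lt]
    push_cast [hQd]
    push_cast at h1
    constructor <;> omega
  have hTT : ∀ h ∈ T, ∀ h' ∈ T, |h' - h| < (Q : ℤ) := by
    intro h hh h' hh'
    have h1 := tp_size T h hh
    have h2 := tp_size T h' hh'
    rw [abs_le] at h1 h2
    rw [abs_lt]
    push_cast [hQd]
    push_cast at h1 h2
    constructor <;> omega
  have h0 : ∀ l ∈ Icc (-(N : ℤ)) N, |l - 0| < (Q : ℤ) := by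
    intro l hl
    rw [mem_Icc] at hl
    have hNQ : (N : ℤ) < Q := by
      have h5 : N < Q := by omega
      exact_mod_cast h5
    rw [abs_lt]
    constructor <;> omega
  obtain ⟨i0, hi0, hmax⟩ := exists_max_image (range Q) (fun i : ℕ => En ((i : ℝ) / Q)) ⟨0, mem_range.2 hQ⟩
  refine ⟨(i0 : ℝ) / Q, ?_⟩
  set C : ℕ → ℂ := fun i => ∑ h ∈ T, c h * ee (-((i : ℝ) / Q * h)) with hC
  have s1 : (Q : ℂ) * ∑ h ∈ T, c h * ρ h = ∑ i ∈ range Q, ((En ((i : ℝ) / Q) : ℝ) : ℂ) * C i := by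
    rw [Finset.mul_sum]
    have e1 : ∀ h ∈ T, (Q : ℂ) * (c h * ρ h) =
        ∑ i ∈ range Q, ((En ((i : ℝ) / Q) : ℝ) : ℂ) * (c h * ee (-((i : ℝ) / Q * h))) := by
      intro h hh
      have e2 := tp_inv Q hQ hρ En hexp h (hT h hh)
      calc (Q : ℂ) * (c h * ρ h) = c h * (Q * ρ h) := by ring
        _ = _ := by
          rw [← e2, Finset.mul_sum]
          refine Finset.sum_congr rfl fun i _ => ?_
          ring
    rw [Finset.sum_congr rfl e1, Finset.sum_comm]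
    refine Finset.sum_congr rfl fun i _ => ?_
    rw [hC, Finset.mul_sum]
  have s2 : ∑ i ∈ range Q, En ((i : ℝ) / Q) = Q * ‖ρ 0‖ := by
    have e2 := tp_inv Q hQ hρ En hexp 0 h0
    have e3 : ((∑ i ∈ range Q, En ((i : ℝ) / Q) : ℝ) : ℂ) = Q * ρ 0 := by
      rw [← e2, Complex.ofReal_sum]
      refine Finset.sum_congr rfl fun i _ => ?_
      simp [ee_zero]
    have e4 := congrArg norm e3
    rw [Complex.norm_real, Real.norm_of_nonneg (Finset.sum_nonneg fun _ _ => hE _), norm_mul,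
      Complex.norm_natCast] at e4
    exact e4
  have s3 : ∑ i ∈ range Q, ‖C i‖ ^ 2 = Q * ∑ h ∈ T, ‖c h‖ ^ 2 := by
    have e1 := tp_pars Q hQ T (fun h => (starRingEnd ℂ) (c h)) hTT
    have e2 : ∀ i : ℕ, ‖∑ h ∈ T, (starRingEnd ℂ) (c h) * ee ((i : ℝ) / Q * h)‖ = ‖C i‖ := by
      intro i
      have e3 : ∑ h ∈ T, (starRingEnd ℂ) (c h) * ee ((i : ℝ) / Q * h) = (starRingEnd ℂ) (C i) := by
        rw [hC, map_sum]
        refine Finset.sum_congr rfl fun h _ => ?_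
        rw [map_mul, ee_conj, neg_neg]
      rw [e3, RCLike.norm_conj]
    simp only [e2, RCLike.norm_conj] at e1
    exact e1
  have s4 : ∑ h ∈ T, ‖c h‖ ^ 2 ≤ L := by
    refine le_trans ?_ hL
    calc ∑ h ∈ T, ‖c h‖ ^ 2 ≤ ∑ _h ∈ T, (1 : ℝ) :=
          Finset.sum_le_sum fun h _ => pow_le_one₀ (norm_nonneg _) (hc h)
      _ = T.card := by simp
  have hηL : 0 < η * L := mul_pos hη hL0
  have s5 : ∀ i, ‖C i‖ ≤ η * L + ‖C i‖ ^ 2 / (η * L) := by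
    intro i
    rw [← sub_le_iff_le_add', le_div_iff₀ hηL]
    nlinarith [sq_nonneg (‖C i‖ - η * L), norm_nonneg (C i), mul_nonneg hηL.le (norm_nonneg (C i))]
  have s6 : Q * ‖∑ h ∈ T, c h * ρ h‖ ≤ Q * (η * L * ‖ρ 0‖ + En ((i0 : ℝ) / Q) / η) := by
    have e1 : Q * ‖∑ h ∈ T, c h * ρ h‖ = ‖(Q : ℂ) * ∑ h ∈ T, c h * ρ h‖ := by
      rw [norm_mul, Complex.norm_natCast]
    rw [e1, s1]
    calc _ ≤ ∑ i ∈ range Q, En ((i : ℝ) / Q) * ‖C i‖ := by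
          refine (norm_sum_le _ _).trans (Finset.sum_le_sum fun i _ => ?_)
          rw [norm_mul, Complex.norm_real, Real.norm_of_nonneg (hE _)]
      _ ≤ ∑ i ∈ range Q, (En ((i : ℝ) / Q) * (η * L) + En ((i0 : ℝ) / Q) * (‖C i‖ ^ 2 / (η * L))) := by
          refine Finset.sum_le_sum fun i hi => ?_
          calc _ ≤ En ((i : ℝ) / Q) * (η * L + ‖C i‖ ^ 2 / (η * L)) :=
                mul_le_mul_of_nonneg_left (s5 i) (hE _)
            _ = En ((i : ℝ) / Q) * (η * L) + En ((i : ℝ) / Q) * (‖C i‖ ^ 2 / (η * L)) := by ring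
            _ ≤ _ := by
              have e2 : En ((i : ℝ) / Q) * (‖C i‖ ^ 2 / (η * L)) ≤ En ((i0 : ℝ) / Q) * (‖C i‖ ^ 2 / (η * L)) :=
                mul_le_mul_of_nonneg_right (hmax i hi) (by positivity)
              linarith
      _ = η * L * (Q * ‖ρ 0‖) + En ((i0 : ℝ) / Q) / (η * L) * (Q * ∑ h ∈ T, ‖c h‖ ^ 2) := by
          rw [Finset.sum_add_distrib, ← Finset.sum_mul, s2, ← s3, ← Finset.mul_sum, ← Finset.sum_div]
          ring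
      _ ≤ η * L * (Q * ‖ρ 0‖) + En ((i0 : ℝ) / Q) / (η * L) * (Q * L) := by
          have e3 : 0 ≤ En ((i0 : ℝ) / Q) / (η * L) := div_nonneg (hE _) hηL.le
          have e4 : (Q : ℝ) * ∑ h ∈ T, ‖c h‖ ^ 2 ≤ Q * L := mul_le_mul_of_nonneg_left s4 hQR.le
          have e5 := mul_le_mul_of_nonneg_left e4 e3
          linarith
      _ = Q * (η * L * ‖ρ 0‖ + En ((i0 : ℝ) / Q) / η) := by
          field_simp
  exact le_of_mul_le_mul_left s6 hQR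

/-- Chunk TP2 (M). PROOF. As in TP1 with Q larger than N + |b' - b| for all b, b' in S: ∑_{b, b'} B b conj B b' ρ (b' - b) = (1/Q) ∑_i En (i/Q) |∑_b B b ee (i b/Q)|²
(ee (-i (b' - b)/Q) = ee (i b/Q) conj ee (i b'/Q)), and (1/Q) ∑_i |∑_b B b ee (i b/Q)|² = ∑_b |B b|². -/
theorem TP2 {N : ℕ} {ρ : ℤ → ℂ} (hρ : ∀ l, l ∉ Icc (-(N : ℤ)) N → ρ l = 0) (En : ℝ → ℝ) (hE : ∀ φ, 0 ≤ En φ)
    (hexp : ∀ φ, ((En φ : ℝ) : ℂ) = ∑ l ∈ Icc (-(N : ℤ)) N, ρ l * ee (φ * l)) (S : Finset ℤ) (B : ℤ → ℂ) :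
    ∃ φ : ℝ, ‖∑ b ∈ S, ∑ b' ∈ S, B b * (starRingEnd ℂ) (B b') * ρ (b' - b)‖ ≤ (∑ b ∈ S, ‖B b‖ ^ 2) * En φ := by
  obtain ⟨Q, hQd⟩ : ∃ Q : ℕ, Q = 2 * N + 1 + 2 * ∑ x ∈ S, x.natAbs := ⟨_, rfl⟩
  have hQ : 0 < Q := by omega
  have hQR : (0 : ℝ) < Q := by exact_mod_cast hQ
  have hSS : ∀ h ∈ S, ∀ h' ∈ S, |h' - h| < (Q : ℤ) := by
    intro h hh h' hh'
    have h1 := tp_size S h hh
    have h2 := tp_size S h' hh'
    rw [abs_le] at h1 h2
    rw [abs_lt]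
    push_cast [hQd]
    push_cast at h1 h2
    constructor <;> omega
  have hS : ∀ b ∈ S, ∀ b' ∈ S, ∀ l ∈ Icc (-(N : ℤ)) N, |l - (b' - b)| < (Q : ℤ) := by
    intro h hh h' hh' l hl
    have h1 := tp_size S h hh
    have h2 := tp_size S h' hh'
    rw [mem_Icc] at hl
    rw [abs_le] at h1 h2
    rw [abs_lt]
    push_cast [hQd]
    push_cast at h1 h2
    constructor <;> omega
  obtain ⟨i0, hi0, hmax⟩ := exists_max_image (range Q) (fun i : ℕ => En ((i : ℝ) / Q)) ⟨0, mem_range.2 hQ⟩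
  refine ⟨(i0 : ℝ) / Q, ?_⟩
  have s1 : (Q : ℂ) * ∑ b ∈ S, ∑ b' ∈ S, B b * (starRingEnd ℂ) (B b') * ρ (b' - b) =
      ((∑ i ∈ range Q, En ((i : ℝ) / Q) * ‖∑ b ∈ S, B b * ee ((i : ℝ) / Q * b)‖ ^ 2 : ℝ) : ℂ) := by
    rw [Complex.ofReal_sum]
    have e1 : ∀ i ∈ range Q, ((En ((i : ℝ) / Q) * ‖∑ b ∈ S, B b * ee ((i : ℝ) / Q * b)‖ ^ 2 : ℝ) : ℂ) =
        ∑ b ∈ S, ∑ b' ∈ S, B b * (starRingEnd ℂ) (B b') *
          (((En ((i : ℝ) / Q) : ℝ) : ℂ) * ee (-((i : ℝ) / Q * ((b' - b : ℤ) : ℝ)))) := by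
      intro i _
      rw [Complex.ofReal_mul, ← Complex.normSq_eq_norm_sq, ← Complex.mul_conj, map_sum, Finset.sum_mul_sum]
      rw [Finset.mul_sum]
      refine Finset.sum_congr rfl fun b _ => ?_
      rw [Finset.mul_sum]
      refine Finset.sum_congr rfl fun b' _ => ?_
      rw [map_mul, ee_conj]
      have e2 : ee (-((i : ℝ) / Q * ((b' - b : ℤ) : ℝ))) = ee ((i : ℝ) / Q * b) * ee (-((i : ℝ) / Q * b')) := by
        rw [← ee_add]
        congr 1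
        push_cast
        ring
      rw [e2]
      ring
    symm
    rw [Finset.sum_congr rfl e1, Finset.sum_comm, Finset.mul_sum]
    refine Finset.sum_congr rfl fun b hb => ?_
    rw [Finset.sum_comm, Finset.mul_sum]
    refine Finset.sum_congr rfl fun b' hb' => ?_
    rw [← Finset.mul_sum, tp_inv Q hQ hρ En hexp (b' - b) (hS b hb b' hb')]
    ring
  have s3 := tp_pars Q hQ S B hSS
  have s6 : Q * ‖∑ b ∈ S, ∑ b' ∈ S, B b * (starRingEnd ℂ) (B b') * ρ (b' - b)‖ ≤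
      Q * ((∑ b ∈ S, ‖B b‖ ^ 2) * En ((i0 : ℝ) / Q)) := by
    have e1 : Q * ‖∑ b ∈ S, ∑ b' ∈ S, B b * (starRingEnd ℂ) (B b') * ρ (b' - b)‖ =
        ‖(Q : ℂ) * ∑ b ∈ S, ∑ b' ∈ S, B b * (starRingEnd ℂ) (B b') * ρ (b' - b)‖ := by
      rw [norm_mul, Complex.norm_natCast]
    rw [e1, s1, Complex.norm_real, Real.norm_of_nonneg (Finset.sum_nonneg fun _ _ => mul_nonneg (hE _) (by positivity))]
    calc _ ≤ ∑ i ∈ range Q, En ((i0 : ℝ) / Q) * ‖∑ b ∈ S, B b * ee ((i : ℝ) / Q * b)‖ ^ 2 :=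
          Finset.sum_le_sum fun i hi => mul_le_mul_of_nonneg_right (hmax i hi) (by positivity)
      _ = Q * ((∑ b ∈ S, ‖B b‖ ^ 2) * En ((i0 : ℝ) / Q)) := by
          rw [← Finset.mul_sum, s3]
          ring
  exact le_of_mul_le_mul_left s6 hQR

end Pool.Agent.H3B
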