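import Mathlib
import Pool.Agent.Lib.H3B.S0A
import Pool.Agent.Lib.H3B.S0D
import Pool.Agent.Lib.H3B.TP
import Pool.Agent.Lib.H3B.A3

/-! # H3B (MP_443e5f, candidate T, module B), chunk S0E -/

namespace Pool.Agent.H3B

open Finset
open Pool.Agent.H44W (ee TF cut tII)

theorem s0e_card {M : ℕ} {ε : ℤ} (hε : ε = 0 ∨ ε = 1) : ((SS M ε).card : ℝ) ≤ M := by
  have h1 : SS M ε ⊆ Ico (0 : ℤ) M := by
    intro b hb
    unfold SS at hb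
    rw [mem_filter, mem_Ico] at hb
    rw [mem_Ico]
    rcases hε with h | h <;> subst h <;> omega
  have h2 := card_le_card h1
  rw [Int.card_Ico, sub_zero, Int.toNat_natCast] at h2
  exact_mod_cast h2

theorem s0e_BB {M : ℕ} {ε : ℤ} {be : ℤ → ℂ} (hbe : ∀ x, ‖be x‖ ≤ 1) (h b : ℤ) : ‖BB M ε be h b‖ ≤ 1 := by
  unfold BB
  split_ifs
  · rw [norm_mul, RCLike.norm_conj]
    exact mul_le_one₀ (hbe _) (norm_nonneg _) (hbe _)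
  · rw [norm_zero]
    exact zero_le_one

/-- Chunk S0E (M). The choice of the frequencies. PROOF. For each h TP2 with N := 2 n, ρ l = ∑_{a in Ico K 2K} R (Gd g (a (2h))) (a l), En φ = ∑_a E a (tw (φ/a) (Gd g (a (2h)))) (E_exp with j = a, N := n; ρ l = 0
for |l| > 2 n: R_out), S = SS M ε, B = BB: ∑_b |BB b|² ≤ card SS ≤ M. The sum over a of the double sums is the double sum with ρ. re ≤ norm. -/
theorem s0_freq {n K M : ℕ} (hK : 1 ≤ K) {ε : ℤ} (hε : ε = 0 ∨ ε = 1) {be g : ℤ → ℂ} (hbe : ∀ x, ‖be x‖ ≤ 1) (hgs : Sp n g) (h : ℤ) :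
    ∃ φ : ℝ, ∑ a ∈ Ico K (2 * K), (∑ b ∈ SS M ε, ∑ b' ∈ SS M ε, BB M ε be h b * (starRingEnd ℂ) (BB M ε be h b') *
        R (Gd g (a * (2 * h))) (a * (b' - b))).re ≤ M * ∑ a ∈ Ico K (2 * K), E a (tw (φ / a) (Gd g (a * (2 * h)))) := by
  have hρ : ∀ l : ℤ, l ∉ Icc (-((2 * n : ℕ) : ℤ)) ((2 * n : ℕ) : ℤ) →
      ∑ a ∈ Ico K (2 * K), R (Gd g (a * (2 * h))) (a * l) = 0 := by
    intro l hl
    refine sum_eq_zero fun a ha => ?_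
    rw [mem_Ico] at ha
    refine R_out (hgs.Gd _) ?_
    rw [abs_mul]
    have h1 : (1 : ℤ) ≤ |(a : ℤ)| := by
      rw [Nat.abs_cast]
      omega
    have h2 : 2 * (n : ℤ) < |l| := by
      by_contra h3
      apply hl
      rw [not_lt, abs_le] at h3
      rw [mem_Icc]
      push_cast
      constructor <;> omega
    have h3 : |l| ≤ |(a : ℤ)| * |l| := le_mul_of_one_le_left (abs_nonneg _) h1
    linarith
  have hexp : ∀ φ : ℝ, ((∑ a ∈ Ico K (2 * K), E a (tw (φ / a) (Gd g (a * (2 * h)))) : ℝ) : ℂ) =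
      ∑ l ∈ Icc (-((2 * n : ℕ) : ℤ)) ((2 * n : ℕ) : ℤ),
        (∑ a ∈ Ico K (2 * K), R (Gd g (a * (2 * h))) (a * l)) * ee (φ * l) := by
    intro φ
    rw [Complex.ofReal_sum]
    simp only [sum_mul]
    rw [sum_comm]
    refine sum_congr rfl fun a ha => ?_
    rw [mem_Ico] at ha
    have h1 := E_exp (hgs.Gd ((a : ℤ) * (2 * h))) (j := (a : ℤ)) (by omega) φ
    rw [Int.natAbs_natCast, Int.cast_natCast] at h1
    rw [h1]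
    push_cast
    rfl
  obtain ⟨φ, hφ⟩ := TP2 hρ (fun φ => ∑ a ∈ Ico K (2 * K), E a (tw (φ / a) (Gd g (a * (2 * h)))))
    (fun φ => sum_nonneg fun a _ => E_nonneg _ _) hexp (SS M ε) (BB M ε be h)
  refine ⟨φ, ?_⟩
  have e1 : ∑ a ∈ Ico K (2 * K), (∑ b ∈ SS M ε, ∑ b' ∈ SS M ε, BB M ε be h b * (starRingEnd ℂ) (BB M ε be h b') *
        R (Gd g (a * (2 * h))) (a * (b' - b))).re =
      (∑ b ∈ SS M ε, ∑ b' ∈ SS M ε, BB M ε be h b * (starRingEnd ℂ) (BB M ε be h b') *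
        (∑ a ∈ Ico K (2 * K), R (Gd g (a * (2 * h))) (a * (b' - b)))).re := by
    rw [← Complex.re_sum]
    congr 1
    rw [sum_comm]
    refine sum_congr rfl fun b _ => ?_
    rw [sum_comm]
    refine sum_congr rfl fun b' _ => ?_
    rw [mul_sum]
  rw [e1]
  refine (Complex.re_le_norm _).trans (hφ.trans ?_)
  refine mul_le_mul_of_nonneg_right ?_ (sum_nonneg fun a _ => E_nonneg _ _)
  refine le_trans ?_ (s0e_card (M := M) hε)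
  calc ∑ b ∈ SS M ε, ‖BB M ε be h b‖ ^ 2 ≤ ∑ _b ∈ SS M ε, (1 : ℝ) :=
        sum_le_sum fun b _ => pow_le_one₀ (norm_nonneg _) (s0e_BB hbe _ _)
    _ = (SS M ε).card := by rw [sum_const, nsmul_eq_mul, mul_one]

/-- The fourth power. -/
theorem s0e_pow (K : ℕ) (t : ℕ → ℝ) :
    (∑ a ∈ Ico K (2 * K), t a) ^ 4 ≤ (K : ℝ) ^ 3 * ∑ a ∈ Ico K (2 * K), t a ^ 4 := by
  have hc : (Ico K (2 * K)).card = K := by
    rw [Nat.card_Ico]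
    omega
  have h1 := sq_sum_le_card_mul_sum_sq (s := Ico K (2 * K)) (f := t)
  have h2 := sq_sum_le_card_mul_sum_sq (s := Ico K (2 * K)) (f := fun a => t a ^ 2)
  rw [hc] at h1 h2
  have h3 : 0 ≤ (∑ a ∈ Ico K (2 * K), t a) ^ 2 := sq_nonneg _
  calc (∑ a ∈ Ico K (2 * K), t a) ^ 4 = ((∑ a ∈ Ico K (2 * K), t a) ^ 2) ^ 2 := by ring
    _ ≤ ((K : ℝ) * ∑ a ∈ Ico K (2 * K), t a ^ 2) ^ 2 := pow_le_pow_left₀ h3 h1 2
    _ = (K : ℝ) ^ 2 * (∑ a ∈ Ico K (2 * K), t a ^ 2) ^ 2 := by ring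
    _ ≤ (K : ℝ) ^ 2 * (K * ∑ a ∈ Ico K (2 * K), (t a ^ 2) ^ 2) := mul_le_mul_of_nonneg_left h2 (by positivity)
    _ = (K : ℝ) ^ 3 * ∑ a ∈ Ico K (2 * K), t a ^ 4 := by
        have : ∀ a, (t a ^ 2) ^ 2 = t a ^ 4 := fun a => by ring
        simp only [this]
        ring

/-- Chunk S0F (M). Step 0. PROOF. TF_le_Tt: some ε has ∑_a ‖Tt a‖ ≥ n²/(2D). (∑_a ‖Tt‖)⁴ ≤ K³ ∑_a ‖Tt‖⁴ (inner_le_nnorm_mul_nnorm or twice Cauchy-Schwarz). s0_four for each a in Ico K 2K (a · 2M < 4 K M ≤ 8 n).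
Exchange the sums over a and h; s0_freq: n⁸/(16 D⁴ K³) ≤ 400 n³ M · M · V, V = the right side. So V ≥ n⁵/(6400 D⁴ K³ M²), K³ M² = K (K M)² ≤ 4 K n², n/K ≥ M/2: V ≥ n² M/(51200 D⁴) and
51200 ≤ 2¹⁶ ≤ D¹⁶. (M ≥ 1, K ≥ 1 because TF ≠ 0.) -/
theorem step0 {n K M : ℕ} {D : ℝ} (hD : 2 ≤ D) (hn : 1 ≤ n) (hK : 1 ≤ K) (hKM : K * M ≤ 2 * n) (al be : ℕ → ℂ) (hal : ∀ a, ‖al a‖ ≤ 1)
    (hbe : ∀ b, ‖be b‖ ≤ 1) (W f g : ℤ → ℂ) (hW : ∀ x, ‖W x‖ ≤ 1) (hf : ∀ x, ‖f x‖ ≤ 1) (hg : ∀ x, ‖g x‖ ≤ 1)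
    (hT : (n : ℝ) ^ 2 / D ≤ ‖TF n (tII K M al be) W f g‖) :
    ∃ ψ : ℤ → ℝ, (M : ℝ) * n ^ 2 / D ^ 20 ≤ ∑ h ∈ Ioo (-(M : ℤ)) M, ∑ a ∈ Ico K (2 * K),
      E a (tw (ψ h / a) (Gd (cut n g) (a * (2 * h)))) := by
  have hnR : (0 : ℝ) < n := by exact_mod_cast hn
  have hKR : (0 : ℝ) < K := by exact_mod_cast hK
  have hD0 : (0 : ℝ) < D := by linarith
  obtain ⟨be', hbe'⟩ : ∃ be' : ℤ → ℂ, be' = fun b => be b.toNat := ⟨_, rfl⟩
  have hbn : ∀ x, ‖be' x‖ ≤ 1 := by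
    intro x
    rw [hbe']
    exact hbe _
  have h1 := hT.trans (TF_le_Tt n K M al be hal W f g)
  rw [← hbe'] at h1
  have h2 : ∃ ε : ℤ, (ε = 0 ∨ ε = 1) ∧ (n : ℝ) ^ 2 / (2 * D) ≤
      ∑ a ∈ Ico K (2 * K), ‖Tt M a ε be' W (cut n f) (cut n g)‖ := by
    rw [sum_pair (by norm_num)] at h1
    by_contra hc
    push Not at hc
    have h3 := hc 0 (Or.inl rfl)
    have h4 := hc 1 (Or.inr rfl)
    have h5 : (n : ℝ) ^ 2 / (2 * D) + (n : ℝ) ^ 2 / (2 * D) = (n : ℝ) ^ 2 / D := by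
      field_simp
      norm_num
    linarith
  obtain ⟨ε, hε, h3⟩ := h2
  have hfreq : ∀ h : ℤ, ∃ φ : ℝ, _ := fun h => s0_freq (n := n) (M := M) hK hε hbn (cut_Sp n g) h
  choose ψ hψ using hfreq
  refine ⟨ψ, ?_⟩
  obtain ⟨V, hV⟩ : ∃ V : ℝ, V = ∑ h ∈ Ioo (-(M : ℤ)) M, ∑ a ∈ Ico K (2 * K),
      E a (tw (ψ h / a) (Gd (cut n g) (a * (2 * h)))) := ⟨_, rfl⟩
  rw [← hV]
  have h4 : ∑ a ∈ Ico K (2 * K), ‖Tt M a ε be' W (cut n f) (cut n g)‖ ^ 4 ≤ 400 * n ^ 3 * M * (M * V) := by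
    calc ∑ a ∈ Ico K (2 * K), ‖Tt M a ε be' W (cut n f) (cut n g)‖ ^ 4
        ≤ ∑ a ∈ Ico K (2 * K), 400 * (n : ℝ) ^ 3 * M * ∑ h ∈ Ioo (-(M : ℤ)) M,
          (∑ b ∈ SS M ε, ∑ b' ∈ SS M ε, BB M ε be' h b * (starRingEnd ℂ) (BB M ε be' h b') *
          R (Gd (cut n g) (a * (2 * h))) (a * (b' - b))).re := by
          refine sum_le_sum fun a ha => ?_
          rw [mem_Ico] at ha
          have ha1 : (1 : ℤ) ≤ a := by
            have : 1 ≤ a := by omega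
            exact_mod_cast this
          have haM : (a : ℤ) * (2 * M) ≤ 8 * n := by
            have g1 : a * (2 * M) ≤ 8 * n := by
              calc a * (2 * M) ≤ (2 * K) * (2 * M) := Nat.mul_le_mul_right _ ha.2.le
                _ = 4 * (K * M) := by ring
                _ ≤ 8 * n := by omega
            exact_mod_cast g1
          exact s0_four hn ha1 haM hε hW (cut_norm hf) (cut_Sp n f) (cut_Sp n g)
      _ = 400 * (n : ℝ) ^ 3 * M * ∑ h ∈ Ioo (-(M : ℤ)) M, ∑ a ∈ Ico K (2 * K),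
          (∑ b ∈ SS M ε, ∑ b' ∈ SS M ε, BB M ε be' h b * (starRingEnd ℂ) (BB M ε be' h b') *
          R (Gd (cut n g) (a * (2 * h))) (a * (b' - b))).re := by
          rw [← mul_sum, sum_comm]
      _ ≤ 400 * (n : ℝ) ^ 3 * M * ∑ h ∈ Ioo (-(M : ℤ)) M, (M * ∑ a ∈ Ico K (2 * K),
          E a (tw (ψ h / a) (Gd (cut n g) (a * (2 * h))))) :=
          mul_le_mul_of_nonneg_left (sum_le_sum fun h _ => hψ h) (by positivity)
      _ = 400 * n ^ 3 * M * (M * V) := by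
          rw [← mul_sum, hV]
  have h5 : ((n : ℝ) ^ 2 / (2 * D)) ^ 4 ≤ (K : ℝ) ^ 3 * (400 * n ^ 3 * M * (M * V)) := by
    refine (pow_le_pow_left₀ (by positivity) h3 4).trans ((s0e_pow K _).trans ?_)
    exact mul_le_mul_of_nonneg_left h4 (by positivity)
  by_contra hc
  push Not at hc
  have hKMR : (K : ℝ) * M ≤ 2 * n := by exact_mod_cast hKM
  have h6 : (K : ℝ) ^ 3 * (400 * n ^ 3 * M * (M * V)) ≤ 3200 * (n : ℝ) ^ 8 / D ^ 20 := by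
    calc (K : ℝ) ^ 3 * (400 * n ^ 3 * M * (M * V)) = (400 * (K : ℝ) ^ 3 * n ^ 3 * M ^ 2) * V := by ring
      _ ≤ (400 * (K : ℝ) ^ 3 * n ^ 3 * M ^ 2) * ((M : ℝ) * n ^ 2 / D ^ 20) :=
          mul_le_mul_of_nonneg_left hc.le (by positivity)
      _ = 400 * ((K : ℝ) * M) ^ 3 * n ^ 5 / D ^ 20 := by ring
      _ ≤ 400 * (2 * (n : ℝ)) ^ 3 * n ^ 5 / D ^ 20 := by gcongr
      _ = 3200 * (n : ℝ) ^ 8 / D ^ 20 := by ring
  have h7 : (n : ℝ) ^ 8 / (16 * D ^ 4) ≤ 3200 * (n : ℝ) ^ 8 / D ^ 20 := by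
    have g1 : (n : ℝ) ^ 8 / (16 * D ^ 4) = ((n : ℝ) ^ 2 / (2 * D)) ^ 4 := by
      rw [div_pow]
      ring
    rw [g1]
    exact h5.trans h6
  rw [div_le_div_iff₀ (by positivity) (by positivity)] at h7
  have h8 : (2 : ℝ) ^ 16 ≤ D ^ 16 := pow_le_pow_left₀ (by norm_num) hD 16
  have h9 : (n : ℝ) ^ 8 * D ^ 4 * D ^ 16 ≤ (n : ℝ) ^ 8 * D ^ 4 * 51200 := by
    calc (n : ℝ) ^ 8 * D ^ 4 * D ^ 16 = (n : ℝ) ^ 8 * D ^ 20 := by ring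
      _ ≤ _ := h7
      _ = _ := by ring
  have h10 := le_of_mul_le_mul_left h9 (by positivity)
  norm_num at h8
  linarith

end Pool.Agent.H3B
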