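import Mathlib
import Pool.Agent.Lib.H3B.Defs

/-! # H3B (MP_443e5f, candidate T, module B), chunk CS -/

namespace Pool.Agent.H3B

open Finset
open Pool.Agent.H44W (ee TF cut)

theorem cs_sq {n : ℕ} (hn : 1 ≤ n) {g : ℤ → ℂ} (hg : ∀ z, ‖g z‖ ≤ 1) (hs : Sp n g) (Z : Finset ℤ)
    (hZ : Icc (-(n : ℤ)) n ⊆ Z) : ∑ y ∈ Z, ‖g y‖ ^ 2 ≤ 3 * (n : ℝ) := by
  have h1 : ∑ y ∈ Z, ‖g y‖ ^ 2 = ∑ y ∈ Icc (-(n : ℤ)) n, ‖g y‖ ^ 2 := by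
    symm
    refine sum_subset hZ fun y _ hy => ?_
    have h2 : g y = 0 := by
      by_contra h0
      exact hy (mem_Icc.2 (abs_le.1 (hs y h0)))
    rw [h2]
    simp
  have h2 : ∑ y ∈ Icc (-(n : ℤ)) n, ‖g y‖ ^ 2 ≤ ∑ _y ∈ Icc (-(n : ℤ)) n, (1 : ℝ) :=
    sum_le_sum fun y _ => pow_le_one₀ (norm_nonneg _) (hg y)
  rw [h1]
  refine h2.trans ?_
  rw [sum_const, Int.card_Icc, nsmul_eq_mul, mul_one]
  have h3 : (n : ℤ) + 1 - -(n : ℤ) = ((2 * n + 1 : ℕ) : ℤ) := by push_cast; ring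
  rw [h3, Int.toNat_natCast]
  push_cast
  have h4 : (1 : ℝ) ≤ n := by exact_mod_cast hn
  linarith

/-- Chunk CS (M). Cauchy-Schwarz removing g(y). PROOF. The left side is |∑' y, g y * V y|², V y = ∑_{a in s} conj g (y + q a) * v a y (finite sums). ≤ (∑ |g|²)(∑' y, |V y|²), ∑ |g|² ≤ 2 n + 1 ≤ 3 n,
and ∑' y, |V y|² = ∑_{a, a'} ∑' y, conj g (y + q a) g (y + q a') v a y conj v a' y (all have finite support, Sp.shift). -/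
theorem CSg {n : ℕ} (hn : 1 ≤ n) {g : ℤ → ℂ} (hg : ∀ z, ‖g z‖ ≤ 1) (hs : Sp n g) {ι : Type} (s : Finset ι) (q : ι → ℤ) (v : ι → ℤ → ℂ) :
    ‖∑ a ∈ s, ∑' y : ℤ, Gd g (q a) y * v a y‖ ^ 2 ≤ 3 * n * ∑ a ∈ s, ∑ a' ∈ s,
      ‖∑' y : ℤ, (starRingEnd ℂ) (g (y + q a)) * g (y + q a') * (v a y * (starRingEnd ℂ) (v a' y))‖ := by
  obtain ⟨T, hT⟩ : ∃ T : ℕ, ∀ a ∈ s, (q a).natAbs ≤ T :=
    ⟨∑ a ∈ s, (q a).natAbs, fun a ha => single_le_sum (f := fun a => (q a).natAbs) (fun _ _ => Nat.zero_le _) ha⟩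
  obtain ⟨Z, hZd⟩ : ∃ Z : Finset ℤ, Z = Icc (-((n + T : ℕ) : ℤ)) ((n + T : ℕ) : ℤ) := ⟨_, rfl⟩
  have hZ : Icc (-(n : ℤ)) n ⊆ Z := by
    rw [hZd]
    apply Icc_subset_Icc <;> push_cast <;> omega
  have hz : ∀ y ∉ Z, g y = 0 := by
    intro y hy
    by_contra h0
    exact hy (hZ (mem_Icc.2 (abs_le.1 (hs y h0))))
  have hzq : ∀ a ∈ s, ∀ y ∉ Z, g (y + q a) = 0 := by
    intro a ha y hy
    by_contra h0
    have h1 := abs_le.1 (hs _ h0)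
    have h2 := hT a ha
    apply hy
    rw [hZd, mem_Icc]
    push_cast
    omega
  have e1 : ∑ a ∈ s, ∑' y : ℤ, Gd g (q a) y * v a y =
      ∑ y ∈ Z, g y * ∑ a ∈ s, (starRingEnd ℂ) (g (y + q a)) * v a y := by
    have h1 : ∀ a ∈ s, ∑' y : ℤ, Gd g (q a) y * v a y = ∑ y ∈ Z, Gd g (q a) y * v a y := by
      intro a _
      refine tsum_eq_sum fun y hy => ?_
      unfold Gd
      rw [hz y hy]
      ring
    rw [sum_congr rfl h1, sum_comm]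
    refine sum_congr rfl fun y _ => ?_
    rw [mul_sum]
    refine sum_congr rfl fun a _ => ?_
    unfold Gd
    ring
  obtain ⟨V, hV⟩ : ∃ V : ℤ → ℂ, ∀ y, V y = ∑ a ∈ s, (starRingEnd ℂ) (g (y + q a)) * v a y := ⟨_, fun _ => rfl⟩
  have e1' : ∑ a ∈ s, ∑' y : ℤ, Gd g (q a) y * v a y = ∑ y ∈ Z, g y * V y := by
    rw [e1]
    exact sum_congr rfl fun y _ => by rw [hV y]
  have e2 : ((∑ y ∈ Z, ‖V y‖ ^ 2 : ℝ) : ℂ) = ∑ a ∈ s, ∑ a' ∈ s,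
      ∑' y : ℤ, (starRingEnd ℂ) (g (y + q a)) * g (y + q a') * (v a y * (starRingEnd ℂ) (v a' y)) := by
    have h1 : ∀ a ∈ s, ∀ a' ∈ s,
        ∑' y : ℤ, (starRingEnd ℂ) (g (y + q a)) * g (y + q a') * (v a y * (starRingEnd ℂ) (v a' y)) =
        ∑ y ∈ Z, (starRingEnd ℂ) (g (y + q a)) * g (y + q a') * (v a y * (starRingEnd ℂ) (v a' y)) := by
      intro a ha a' _
      refine tsum_eq_sum fun y hy => ?_
      rw [hzq a ha y hy]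
      simp
    rw [sum_congr rfl fun a ha => sum_congr rfl fun a' ha' => h1 a ha a' ha']
    push_cast
    have h2 : ∀ y ∈ Z, ((‖V y‖ : ℝ) : ℂ) ^ 2 =
        ∑ a ∈ s, ∑ a' ∈ s, (starRingEnd ℂ) (g (y + q a)) * g (y + q a') * (v a y * (starRingEnd ℂ) (v a' y)) := by
      intro y _
      rw [← Complex.mul_conj', hV y, map_sum, sum_mul_sum]
      refine sum_congr rfl fun a _ => sum_congr rfl fun a' _ => ?_
      rw [map_mul, Complex.conj_conj]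
      ring
    rw [sum_congr rfl h2, sum_comm]
    refine sum_congr rfl fun a _ => ?_
    rw [sum_comm]
  have e3 : ∑ y ∈ Z, ‖V y‖ ^ 2 ≤ ∑ a ∈ s, ∑ a' ∈ s,
      ‖∑' y : ℤ, (starRingEnd ℂ) (g (y + q a)) * g (y + q a') * (v a y * (starRingEnd ℂ) (v a' y))‖ := by
    have h0 : 0 ≤ ∑ y ∈ Z, ‖V y‖ ^ 2 := sum_nonneg fun _ _ => sq_nonneg _
    have h1 : ∑ y ∈ Z, ‖V y‖ ^ 2 = ‖((∑ y ∈ Z, ‖V y‖ ^ 2 : ℝ) : ℂ)‖ := by
      rw [Complex.norm_real, Real.norm_of_nonneg h0]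
    rw [h1, e2]
    refine (norm_sum_le _ _).trans (sum_le_sum fun a _ => ?_)
    exact norm_sum_le _ _
  have e4 : ‖∑ y ∈ Z, g y * V y‖ ^ 2 ≤ (∑ y ∈ Z, ‖g y‖ ^ 2) * ∑ y ∈ Z, ‖V y‖ ^ 2 := by
    have h1 : ‖∑ y ∈ Z, g y * V y‖ ≤ ∑ y ∈ Z, ‖g y‖ * ‖V y‖ := by
      refine (norm_sum_le _ _).trans (le_of_eq (sum_congr rfl fun y _ => ?_))
      rw [norm_mul]
    exact (pow_le_pow_left₀ (norm_nonneg _) h1 2).trans (sum_mul_sq_le_sq_mul_sq _ _ _)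
  rw [e1']
  refine e4.trans ?_
  have h5 : 0 ≤ ∑ y ∈ Z, ‖V y‖ ^ 2 := sum_nonneg fun _ _ => sq_nonneg _
  calc (∑ y ∈ Z, ‖g y‖ ^ 2) * ∑ y ∈ Z, ‖V y‖ ^ 2 ≤ 3 * n * ∑ y ∈ Z, ‖V y‖ ^ 2 :=
        mul_le_mul_of_nonneg_right (cs_sq hn hg hs Z hZ) h5
    _ ≤ _ := mul_le_mul_of_nonneg_left e3 (by positivity)

end Pool.Agent.H3B
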