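import Mathlib
import Pool.Agent.Lib.H3B.PC
import Pool.Agent.Lib.H3B.CS

/-! # H3B (MP_443e5f, candidate T, module B), chunk S1A -/

namespace Pool.Agent.H3B

open Finset
open Pool.Agent.H44W (ee TF cut)

/-- Chunk S1Aa (S/M). PROOF. u(y) = conj g(y + q) g(y + q') ee(-(θ y)); u(y - q) conjugated is a constant of norm 1 times Gd g (q' - q) y * ee(-(-θ) y) = tw (-θ) (Gd g (q' - q)) y. E_shift, E_conj, E_const. -/
theorem E_pair {g : ℤ → ℂ} (m : ℕ) (q q' : ℤ) (θ : ℝ) :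
    E m (fun y => (starRingEnd ℂ) (g (y + q)) * g (y + q') * ee (-(θ * y))) = E m (tw (-θ) (Gd g (q' - q))) := by
  have h1 := E_shift m (fun y => (starRingEnd ℂ) (g (y + q)) * g (y + q') * ee (-(θ * y))) (-q)
  have h2 := E_conj m (fun y => (fun y : ℤ => (starRingEnd ℂ) (g (y + q)) * g (y + q') * ee (-(θ * y))) (y + -q))
  have h3 := E_const m (tw (-θ) (Gd g (q' - q))) (c := ee (-(θ * q))) (ee_norm _)
  rw [← h1, ← h2, ← h3]
  congr 1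
  funext y
  have e1 : y + -q + q = y := by ring
  have e2 : y + -q + q' = y + (q' - q) := by ring
  simp only [tw, Gd, map_mul, Complex.conj_conj, ee_conj, e1, e2]
  have e3 : -(-(θ * ((y + -q : ℤ) : ℝ))) = -(θ * q) + -(-θ * y) := by
    push_cast
    ring
  rw [e3, ee_add]
  ring

/-- Chunk S1Ab (M). Step 1. PROOF. S = Ico K 2K, q a = a H. PX (N := n, m := a ≤ 2K ≤ n) for tw (ψ/a) (Gd g (a H)): periodic p_a with ∑' y, tw (ψ/a) (Gd g (aH)) y * p_a y = (a/3n) E_a ≥ (K/3n) E_a.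
CSg with v a y = ee(-(ψ/a y)) p_a y: ((K/3n) ∑ E_a)² ≤ 3 n ∑_{a,a'} ‖Z_{a,a'}‖, Z = ∑' y, conj g(y + aH) g(y + a'H) ee(-(θ y)) * (p_a y conj p_a' y), θ = ψ/a - ψ/a' = ψ (a' - a)/(a a').
p_a conj p_a' has period a a': PC: ‖Z‖² ≤ a a' E_{aa'}(..) = a a' E (a a') (tw (-θ) (Gd g ((a' - a) H))) (E_pair), a a' ≤ 4 K². (∑ ‖Z‖)² ≤ K² ∑ ‖Z‖². So
(K/3n)⁴ (∑ E_a)⁴ ≤ 9 n² · K² · 4 K² · ∑ E, (∑ E_a)⁴ ≤ 2916 n⁶ ∑ E. -/
theorem step1a {n K : ℕ} (hK : 1 ≤ K) (hn : 2 * K ≤ n) {g : ℤ → ℂ} (hg : ∀ z, ‖g z‖ ≤ 1) (hs : Sp n g) (H : ℤ) (ψ : ℝ) :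
    (∑ a ∈ Ico K (2 * K), E a (tw (ψ / a) (Gd g (a * H)))) ^ 4 ≤ 3000 * n ^ 6 *
      ∑ a ∈ Ico K (2 * K), ∑ a' ∈ Ico K (2 * K), E (a * a') (tw (-(ψ * ((a' : ℝ) - a)) / ((a * a' : ℕ) : ℝ)) (Gd g (((a' : ℤ) - a) * H))) := by
  classical
  have hn1 : 1 ≤ n := by omega
  have hn0 : (0 : ℝ) < n := by exact_mod_cast hn1
  have hK0 : (0 : ℝ) < K := by exact_mod_cast hK
  -- the periodic functions
  have hex : ∀ a : ℕ, ∃ p : ℤ → ℂ, a ∈ Ico K (2 * K) → (∀ y, ‖p y‖ ≤ 1) ∧ (∀ y, p (y + a) = p y) ∧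
      ∑' y, tw (ψ / a) (Gd g (a * H)) y * p y
        = (((a : ℝ) / (3 * n) * E a (tw (ψ / a) (Gd g (a * H))) : ℝ) : ℂ) := by
    intro a
    by_cases ha : a ∈ Ico K (2 * K)
    · rw [mem_Ico] at ha
      obtain ⟨p, hp1, hp2, hp3⟩ := PX (N := n) (u := tw (ψ / a) (Gd g (a * H))) ((hs.Gd _).tw _)
        (fun y => by rw [tw_norm]; exact Gd_norm hg _ _) (m := a) (by omega) (by omega)
      exact ⟨p, fun _ => ⟨hp1, hp2, hp3⟩⟩
    · exact ⟨fun _ => 0, fun h => absurd h ha⟩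
  choose p hp using hex
  have hcs := CSg hn1 hg hs (Ico K (2 * K)) (fun a : ℕ => (a : ℤ) * H)
    (fun a y => ee (-(ψ / a * y)) * p a y)
  obtain ⟨X, hX⟩ : ∃ X, X = ∑ a ∈ Ico K (2 * K), E a (tw (ψ / a) (Gd g (a * H))) := ⟨_, rfl⟩
  obtain ⟨Y, hY⟩ : ∃ Y, Y = ∑ a ∈ Ico K (2 * K), ∑ a' ∈ Ico K (2 * K), E (a * a')
    (tw (-(ψ * ((a' : ℝ) - a)) / ((a * a' : ℕ) : ℝ)) (Gd g (((a' : ℤ) - a) * H))) := ⟨_, rfl⟩
  have hX0 : 0 ≤ X := by rw [hX]; exact sum_nonneg fun _ _ => E_nonneg _ _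
  -- left side
  have hL : (K : ℝ) / (3 * n) * X ≤ ‖∑ a ∈ Ico K (2 * K), ∑' y : ℤ, Gd g ((a : ℤ) * H) y
      * (ee (-(ψ / a * y)) * p a y)‖ := by
    have e1 : ∑ a ∈ Ico K (2 * K), ∑' y : ℤ, Gd g ((a : ℤ) * H) y * (ee (-(ψ / a * y)) * p a y)
        = ((∑ a ∈ Ico K (2 * K), (a : ℝ) / (3 * n) * E a (tw (ψ / a) (Gd g (a * H))) : ℝ) : ℂ) := by
      rw [Complex.ofReal_sum]
      apply sum_congr rfl
      intro a ha
      rw [← (hp a ha).2.2]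
      apply tsum_congr
      intro y
      unfold tw
      ring
    rw [e1, Complex.norm_real, Real.norm_eq_abs]
    refine le_trans ?_ (le_abs_self _)
    rw [hX, mul_sum]
    apply sum_le_sum
    intro a ha
    rw [mem_Ico] at ha
    apply mul_le_mul_of_nonneg_right _ (E_nonneg _ _)
    apply div_le_div_of_nonneg_right _ (by positivity)
    exact_mod_cast ha.1
  -- the correlations
  have hZ : ∀ a ∈ Ico K (2 * K), ∀ a' ∈ Ico K (2 * K),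
      ‖∑' y : ℤ, (starRingEnd ℂ) (g (y + (a : ℤ) * H)) * g (y + (a' : ℤ) * H)
        * ((ee (-(ψ / a * y)) * p a y) * (starRingEnd ℂ) (ee (-(ψ / a' * y)) * p a' y))‖ ^ 2
      ≤ 4 * (K : ℝ) ^ 2 * E (a * a')
        (tw (-(ψ * ((a' : ℝ) - a)) / ((a * a' : ℕ) : ℝ)) (Gd g (((a' : ℤ) - a) * H))) := by
    intro a ha a' ha'
    have ha1 := mem_Ico.1 ha
    have ha1' := mem_Ico.1 ha'
    have ha0 : (0 : ℝ) < a := by exact_mod_cast (by omega : 0 < a)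
    have ha0' : (0 : ℝ) < a' := by exact_mod_cast (by omega : 0 < a')
    obtain ⟨θ, hθ⟩ : ∃ θ : ℝ, θ = ψ / a - ψ / a' := ⟨_, rfl⟩
    have hSp : Sp (n + ((a : ℤ) * H).natAbs)
        (fun y => (starRingEnd ℂ) (g (y + (a : ℤ) * H)) * g (y + (a' : ℤ) * H) * ee (-(θ * y))) := by
      intro y hy
      have h1 : g (y + (a : ℤ) * H) ≠ 0 := by
        intro h0
        apply hy
        simp only [h0, map_zero, zero_mul]
      exact (hs.shift ((a : ℤ) * H)) y h1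
    have hper : ∀ y, (fun y => p a y * (starRingEnd ℂ) (p a' y)) (y + ((a * a' : ℕ) : ℤ))
        = (fun y => p a y * (starRingEnd ℂ) (p a' y)) y := by
      intro y
      have e1 := pc_per (hp a ha).2.1 y a'
      have e2 := pc_per (hp a' ha').2.1 y a
      have e3 : y + ((a * a' : ℕ) : ℤ) = y + (a : ℤ) * a' := by push_cast; ring
      have e4 : y + ((a * a' : ℕ) : ℤ) = y + (a' : ℤ) * a := by push_cast; ring
      simp only
      rw [e3, e1, ← e3, e4, e2]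
    have hpc := PC hSp (p := fun y => p a y * (starRingEnd ℂ) (p a' y)) (m := a * a')
      (Nat.mul_pos (by omega) (by omega)) (fun y => by
        rw [norm_mul, RCLike.norm_conj]
        exact mul_le_one₀ ((hp a ha).1 y) (norm_nonneg _) ((hp a' ha').1 y)) hper
    have e5 : ∑' y : ℤ, (starRingEnd ℂ) (g (y + (a : ℤ) * H)) * g (y + (a' : ℤ) * H)
        * ((ee (-(ψ / a * y)) * p a y) * (starRingEnd ℂ) (ee (-(ψ / a' * y)) * p a' y))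
        = ∑' y : ℤ, (starRingEnd ℂ) (g (y + (a : ℤ) * H)) * g (y + (a' : ℤ) * H) * ee (-(θ * y))
          * (p a y * (starRingEnd ℂ) (p a' y)) := by
      apply tsum_congr
      intro y
      have e6 : ee (-(θ * y)) = ee (-(ψ / a * y)) * ee (-(-(ψ / a' * y))) := by
        rw [← ee_add]
        congr 1
        rw [hθ]
        ring
      rw [e6, map_mul, ee_conj]
      ring
    rw [e5]
    refine le_trans hpc ?_
    rw [E_pair]
    have e7 : -θ = -(ψ * ((a' : ℝ) - a)) / ((a * a' : ℕ) : ℝ) := by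
      rw [hθ]
      push_cast
      field_simp
    have e8 : (a' : ℤ) * H - (a : ℤ) * H = ((a' : ℤ) - a) * H := by ring
    rw [e7, e8]
    apply mul_le_mul_of_nonneg_right _ (E_nonneg _ _)
    have e9 : (a : ℝ) ≤ 2 * K := by exact_mod_cast ha1.2.le
    have e9' : (a' : ℝ) ≤ 2 * K := by exact_mod_cast ha1'.2.le
    push_cast
    nlinarith
  -- Cauchy-Schwarz over the pairs
  obtain ⟨W, hW⟩ : ∃ W : ℝ, W = ∑ a ∈ Ico K (2 * K), ∑ a' ∈ Ico K (2 * K),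
      ‖∑' y : ℤ, (starRingEnd ℂ) (g (y + (a : ℤ) * H)) * g (y + (a' : ℤ) * H)
        * ((ee (-(ψ / a * y)) * p a y) * (starRingEnd ℂ) (ee (-(ψ / a' * y)) * p a' y))‖ := ⟨_, rfl⟩
  have hW0 : 0 ≤ W := by
    rw [hW]
    exact sum_nonneg fun _ _ => sum_nonneg fun _ _ => norm_nonneg _
  have hcard : ((Ico K (2 * K)).card : ℝ) = K := by
    rw [Nat.card_Ico]
    congr 1
    omega
  have hW2 : W ^ 2 ≤ 4 * (K : ℝ) ^ 4 * Y := by
    rw [hW, ← sum_product']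
    refine le_trans (sq_sum_le_card_mul_sum_sq) ?_
    rw [card_product, Nat.cast_mul, hcard, hY, ← sum_product']
    have h1 : ∑ x ∈ Ico K (2 * K) ×ˢ Ico K (2 * K),
        ‖∑' y : ℤ, (starRingEnd ℂ) (g (y + (x.1 : ℤ) * H)) * g (y + (x.2 : ℤ) * H)
          * ((ee (-(ψ / x.1 * y)) * p x.1 y) * (starRingEnd ℂ) (ee (-(ψ / x.2 * y)) * p x.2 y))‖ ^ 2
        ≤ ∑ x ∈ Ico K (2 * K) ×ˢ Ico K (2 * K), 4 * (K : ℝ) ^ 2 * E (x.1 * x.2)
        (tw (-(ψ * ((x.2 : ℝ) - x.1)) / ((x.1 * x.2 : ℕ) : ℝ)) (Gd g (((x.2 : ℤ) - x.1) * H))) := by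
      apply sum_le_sum
      intro x hx
      rw [mem_product] at hx
      exact hZ x.1 hx.1 x.2 hx.2
    rw [← mul_sum] at h1
    have h2 := mul_le_mul_of_nonneg_left h1 (by positivity : (0 : ℝ) ≤ (K : ℝ) * K)
    refine le_trans h2 (le_of_eq ?_)
    ring
  rw [← hW] at hcs
  have h3 : ((K : ℝ) / (3 * n) * X) ^ 2 ≤ 3 * n * W :=
    le_trans (pow_le_pow_left₀ (by positivity) hL 2) hcs
  have h4 : ((K : ℝ) / (3 * n) * X) ^ 4 ≤ 9 * n ^ 2 * W ^ 2 := by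
    have h5 := pow_le_pow_left₀ (by positivity) h3 2
    have e1 : (((K : ℝ) / (3 * n) * X) ^ 2) ^ 2 = ((K : ℝ) / (3 * n) * X) ^ 4 := by ring
    have e2 : (3 * (n : ℝ) * W) ^ 2 = 9 * n ^ 2 * W ^ 2 := by ring
    rw [e1, e2] at h5
    exact h5
  have hY0 : 0 ≤ Y := by
    rw [hY]
    exact sum_nonneg fun _ _ => sum_nonneg fun _ _ => E_nonneg _ _
  have h6 : ((K : ℝ) / (3 * n) * X) ^ 4 ≤ 36 * n ^ 2 * K ^ 4 * Y := by
    have := mul_le_mul_of_nonneg_left hW2 (by positivity : (0 : ℝ) ≤ 9 * (n : ℝ) ^ 2)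
    nlinarith
  have h7 : (K : ℝ) ^ 4 * X ^ 4 = (81 * n ^ 4) * ((K : ℝ) / (3 * n) * X) ^ 4 := by
    field_simp
    ring
  have h8 : (K : ℝ) ^ 4 * X ^ 4 ≤ (K : ℝ) ^ 4 * (2916 * n ^ 6 * Y) := by
    rw [h7]
    have := mul_le_mul_of_nonneg_left h6 (by positivity : (0 : ℝ) ≤ 81 * (n : ℝ) ^ 4)
    refine le_trans this (le_of_eq ?_)
    ring
  have h9 : X ^ 4 ≤ 2916 * n ^ 6 * Y := le_of_mul_le_mul_left h8 (by positivity)
  rw [← hX, ← hY]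
  have h10 : (0 : ℝ) ≤ (n : ℝ) ^ 6 * Y := by positivity
  nlinarith

end Pool.Agent.H3B
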