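import Mathlib
import Pool.Agent.Lib.H3B.Defs

/-! # H3B (MP_443e5f, candidate T, module B), chunk SY -/

namespace Pool.Agent.H3B

open Finset
open Pool.Agent.H44W (ee TF cut)

/-- Chunk SYa (S). PROOF. tsum_congr; both terms are g y conj g (y + d) conj g (y + q) g (y + d + q). -/
theorem R_symm (g : ℤ → ℂ) (d q : ℤ) : R (Gd g d) q = R (Gd g q) d := by
  unfold R Gd
  refine tsum_congr fun y => ?_
  rw [map_mul, map_mul, Complex.conj_conj, Complex.conj_conj]
  have h1 : y + q + d = y + d + q := by ring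
  rw [h1]
  ring

/-- Chunk SYb (S). -/
theorem R_bound {n : ℕ} {g : ℤ → ℂ} (h : Sp n g) (hg : ∀ z, ‖g z‖ ≤ 1) (hn : 1 ≤ n) (d q : ℤ) : ‖R (Gd g d) q‖ ≤ 3 * n := by
  have h1 : Sp n (fun y => Gd g d y * (starRingEnd ℂ) (Gd g d (y + q))) := (h.Gd d).mul_right _
  have h2 := h1.norm_tsum_le (b := 1) (fun y => by
    rw [norm_mul, RCLike.norm_conj]
    exact mul_le_one₀ (Gd_norm hg _ _) (norm_nonneg _) (Gd_norm hg _ _))
  unfold R
  refine h2.trans ?_
  have h3 : (1 : ℝ) ≤ n := by exact_mod_cast hn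
  linarith

/-- Chunk SYc (S). g y and g (y + q) are not both nonzero. -/
theorem R_zero {n : ℕ} {g : ℤ → ℂ} (h : Sp n g) {d q : ℤ} (hq : 2 * (n : ℤ) < |q|) : R (Gd g d) q = 0 := by
  unfold R
  have h1 : ∀ y, Gd g d y * (starRingEnd ℂ) (Gd g d (y + q)) = 0 := by
    intro y
    by_contra h0
    have h2 : Gd g d y ≠ 0 := left_ne_zero_of_mul h0
    have h3 : Gd g d (y + q) ≠ 0 := by
      intro h4
      apply h0
      rw [h4, map_zero, mul_zero]
    have h4 := h.Gd d y h2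
    have h5 := h.Gd d (y + q) h3
    have h6 : |q| ≤ |y + q| + |y| := by
      have := abs_sub (y + q) y
      simpa using this
    omega
  simp only [h1, tsum_zero]

/-- Chunk SYd (S). The sum of the autocorrelation at 0. -/
theorem R_self {n : ℕ} {g : ℤ → ℂ} (h : Sp n g) (hg : ∀ z, ‖g z‖ ≤ 1) (hn : 1 ≤ n) (d : ℤ) : ‖R (Gd g d) 0‖ ≤ 3 * n :=
  R_bound h hg hn d 0

end Pool.Agent.H3B
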