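import Mathlib
import Pool.Agent.Lib.H3B.D0
import Pool.Agent.Lib.H3B.A3
import Pool.Agent.Lib.H3B.SY

/-! # H3B (MP_443e5f, candidate T, module B), chunk S1B -/

namespace Pool.Agent.H3B

open Finset
open Pool.Agent.H44W (ee TF cut tII)

theorem s1b_reindex (K : ℕ) (F : ℕ → ℤ → ℂ) :
    ∑ a ∈ Ico K (2 * K), ∑ a' ∈ Ico K (2 * K), F a (a' : ℤ) =
      ∑ j ∈ Ioo (-(K : ℤ)) K, ∑ a ∈ Ij K j, F a (a + j) := by
  have h1 : ∀ j ∈ Ioo (-(K : ℤ)) K, ∑ a ∈ Ij K j, F a (a + j) =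
      ∑ a ∈ Ico K (2 * K), if (K : ℤ) ≤ a + j ∧ (a : ℤ) + j < 2 * K then F a (a + j) else 0 := by
    intro j _
    unfold Ij
    rw [sum_filter]
  refine Eq.trans ?_ (sum_congr rfl h1).symm
  rw [sum_comm (s := Ioo (-(K : ℤ)) K)]
  refine sum_congr rfl fun a ha => ?_
  rw [mem_Ico] at ha
  rw [← sum_filter]
  refine sum_nbij' (fun a' => (a' : ℤ) - a) (fun j => ((a : ℤ) + j).toNat) ?_ ?_ ?_ ?_ ?_
  · intro a' ha'
    rw [mem_Ico] at ha'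
    rw [mem_filter, mem_Ioo]
    omega
  · intro j hj
    rw [mem_filter, mem_Ioo] at hj
    rw [mem_Ico]
    omega
  · intro a' _
    simp
  · intro j hj
    rw [mem_filter, mem_Ioo] at hj
    omega
  · intro a' _
    have : (a : ℤ) + ((a' : ℤ) - a) = a' := by ring
    rw [this]

/-- Chunk S1B (M). PROOF. E_exp (N := n, integer a a' > 0, φ = -(ψ h (a' - a))) and R_symm: E (a a') (..) = ∑_{k in Icc (-2n) 2n} R (Gd g (a a' k)) ((a' - a) (2h)) ee(-(ψ h (a' - a)) k). Put j = a' - a: the pairs (a, a') in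
Ico K 2K ×ˢ Ico K 2K correspond to j in Ioo (-K) K, a in Ij K j, a' = a + j. Exchange the finite sums. -/
theorem step1b {n K M : ℕ} (hK : 1 ≤ K) {g : ℤ → ℂ} (hs : Sp n g) (ψ : ℤ → ℝ) :
    ((∑ h ∈ Ioo (-(M : ℤ)) M, ∑ a ∈ Ico K (2 * K), ∑ a' ∈ Ico K (2 * K),
      E (a * a') (tw (-(ψ h * ((a' : ℝ) - a)) / ((a * a' : ℕ) : ℝ)) (Gd g (((a' : ℤ) - a) * (2 * h)))) : ℝ) : ℂ) =
      ∑ j ∈ Ioo (-(K : ℤ)) K, ∑ k ∈ Icc (-(2 * n : ℤ)) (2 * n), val g K M ψ j k := by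
  have h1 : ∀ h : ℤ, ∀ a ∈ Ico K (2 * K), ∀ a' ∈ Ico K (2 * K),
      ((E (a * a') (tw (-(ψ h * ((a' : ℝ) - a)) / ((a * a' : ℕ) : ℝ)) (Gd g (((a' : ℤ) - a) * (2 * h)))) : ℝ) : ℂ) =
      ∑ k ∈ Icc (-(2 * n : ℤ)) (2 * n), ee (-(ψ h * ((a' : ℤ) - a : ℤ) * k)) *
        R (Gd g (a * (a' : ℤ) * k)) (((a' : ℤ) - a) * (2 * h)) := by
    intro h a ha a' ha'
    rw [mem_Ico] at ha ha'
    have hpos : 0 < a * a' := Nat.mul_pos (by omega) (by omega)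
    have hj : ((a * a' : ℕ) : ℤ) ≠ 0 := by exact_mod_cast hpos.ne'
    have h2 := E_exp (hs.Gd (((a' : ℤ) - a) * (2 * h))) hj (-(ψ h * ((a' : ℝ) - a)))
    rw [Int.natAbs_natCast, Int.cast_natCast] at h2
    rw [h2]
    refine sum_congr rfl fun k _ => ?_
    rw [R_symm, mul_comm]
    have e1 : ((a * a' : ℕ) : ℤ) * k = (a : ℤ) * a' * k := by push_cast; ring
    have e2 : -(ψ h * ((a' : ℝ) - a)) * (k : ℝ) = -(ψ h * (((a' : ℤ) - a : ℤ) : ℝ) * k) := by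
      push_cast; ring
    rw [e1, e2]
  have h3 : ((∑ h ∈ Ioo (-(M : ℤ)) M, ∑ a ∈ Ico K (2 * K), ∑ a' ∈ Ico K (2 * K),
      E (a * a') (tw (-(ψ h * ((a' : ℝ) - a)) / ((a * a' : ℕ) : ℝ)) (Gd g (((a' : ℤ) - a) * (2 * h)))) : ℝ) : ℂ) =
      ∑ h ∈ Ioo (-(M : ℤ)) M, ∑ a ∈ Ico K (2 * K), ∑ a' ∈ Ico K (2 * K),
        ∑ k ∈ Icc (-(2 * n : ℤ)) (2 * n), ee (-(ψ h * ((a' : ℤ) - a : ℤ) * k)) *
        R (Gd g (a * (a' : ℤ) * k)) (((a' : ℤ) - a) * (2 * h)) := by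
    rw [Complex.ofReal_sum]
    refine sum_congr rfl fun h _ => ?_
    rw [Complex.ofReal_sum]
    refine sum_congr rfl fun a ha => ?_
    rw [Complex.ofReal_sum]
    exact sum_congr rfl fun a' ha' => h1 h a ha a' ha'
  rw [h3]
  have h4 : ∀ h ∈ Ioo (-(M : ℤ)) M, ∑ a ∈ Ico K (2 * K), ∑ a' ∈ Ico K (2 * K),
        ∑ k ∈ Icc (-(2 * n : ℤ)) (2 * n), ee (-(ψ h * ((a' : ℤ) - a : ℤ) * k)) *
        R (Gd g (a * (a' : ℤ) * k)) (((a' : ℤ) - a) * (2 * h)) =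
      ∑ j ∈ Ioo (-(K : ℤ)) K, ∑ k ∈ Icc (-(2 * n : ℤ)) (2 * n), ee (-(ψ h * j * k)) *
        ∑ a ∈ Ij K j, R (Gd g (a * (a + j) * k)) (j * (2 * h)) := by
    intro h _
    rw [s1b_reindex K (fun a z => ∑ k ∈ Icc (-(2 * n : ℤ)) (2 * n), ee (-(ψ h * (z - a : ℤ) * k)) *
        R (Gd g (a * z * k)) ((z - a) * (2 * h)))]
    refine sum_congr rfl fun j _ => ?_
    rw [sum_comm]
    refine sum_congr rfl fun k _ => ?_
    rw [mul_sum]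
    refine sum_congr rfl fun a _ => ?_
    have e1 : (a : ℤ) + j - a = j := by ring
    rw [e1]
  rw [sum_congr rfl h4, sum_comm]
  refine sum_congr rfl fun j _ => ?_
  rw [sum_comm]
  refine sum_congr rfl fun k _ => ?_
  rfl

/-- Chunk S1Ba (S). Trivial bound (R_bound; at most 2 M values of h, at most K values of a). -/
theorem val_bound {n K M : ℕ} (hn : 1 ≤ n) {g : ℤ → ℂ} (hg : ∀ z, ‖g z‖ ≤ 1) (hs : Sp n g) (ψ : ℤ → ℝ) (j k : ℤ) :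
    ‖val g K M ψ j k‖ ≤ 6 * K * M * n := by
  unfold val
  have hcard : (Ij K j).card ≤ K := by
    unfold Ij
    refine (card_filter_le _ _).trans ?_
    rw [Nat.card_Ico]
    omega
  have h1 : ∀ h ∈ Ioo (-(M : ℤ)) M, ‖ee (-(ψ h * j * k)) * ∑ a ∈ Ij K j, R (Gd g (a * (a + j) * k)) (j * (2 * h))‖ ≤
      K * (3 * n) := by
    intro h _
    rw [norm_mul, ee_norm, one_mul]
    refine (norm_sum_le_of_le _ fun a _ => R_bound hs hg hn _ _).trans ?_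
    rw [sum_const, nsmul_eq_mul]
    exact mul_le_mul_of_nonneg_right (by exact_mod_cast hcard) (by positivity)
  refine (norm_sum_le_of_le _ h1).trans ?_
  rw [sum_const, nsmul_eq_mul, Int.card_Ioo]
  have h2 : ((((M : ℤ) - -(M : ℤ) - 1).toNat : ℕ) : ℝ) ≤ 2 * M := by
    have : ((M : ℤ) - -(M : ℤ) - 1).toNat ≤ 2 * M := by omega
    exact_mod_cast this
  calc _ ≤ (2 * (M : ℝ)) * (K * (3 * n)) := mul_le_mul_of_nonneg_right h2 (by positivity)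
    _ = 6 * K * M * n := by ring

/-- Chunk S1Bb (S). a (a + j) ≥ K² for a in Ij K j, and Gd g q = 0 for |q| > 2 n. -/
theorem val_zero {n K M : ℕ} (hK : 1 ≤ K) {g : ℤ → ℂ} (hs : Sp n g) (ψ : ℤ → ℝ) (j k : ℤ) (hk : 2 * (n : ℤ) < K ^ 2 * |k|) :
    val g K M ψ j k = 0 := by
  unfold val
  refine sum_eq_zero fun h _ => ?_
  have h1 : ∑ a ∈ Ij K j, R (Gd g (a * (a + j) * k)) (j * (2 * h)) = 0 := by
    refine sum_eq_zero fun a ha => ?_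
    unfold Ij at ha
    rw [mem_filter, mem_Ico] at ha
    rw [R_symm]
    refine R_zero hs ?_
    obtain ⟨⟨h1, -⟩, h2, -⟩ := ha
    have h3 : (K : ℤ) ≤ a := by exact_mod_cast h1
    have hK0 : (0 : ℤ) ≤ K := Int.natCast_nonneg _
    have h4 : (K : ℤ) ^ 2 ≤ a * (a + j) := by nlinarith
    have h5 : |(a : ℤ) * (a + j) * k| = a * (a + j) * |k| := by
      rw [abs_mul, abs_of_nonneg (by nlinarith)]
    rw [h5]
    have h6 := mul_le_mul_of_nonneg_right h4 (abs_nonneg k)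
    linarith
  rw [h1, mul_zero]

end Pool.Agent.H3B
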