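import Mathlib
import Pool.Agent.Lib.H3B.Defs

/-! # H3B (MP_443e5f, candidate T, module B), chunk S2A -/

namespace Pool.Agent.H3B

open Finset
open Pool.Agent.H44W (ee TF cut)

theorem s2a_icc (m : ℕ) : ((Icc (-(m : ℤ)) m).card : ℝ) = 2 * m + 1 := by
  rw [Int.card_Icc]
  have h1 : ((m : ℤ) + 1 - -(m : ℤ)).toNat = 2 * m + 1 := by omega
  rw [h1]
  push_cast
  ring

theorem s2a_union {α : Type*} [DecidableEq α] (A B : Finset α) (f : α → ℝ) (hf : ∀ x, 0 ≤ f x) :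
    ∑ x ∈ A ∪ B, f x ≤ ∑ x ∈ A, f x + ∑ x ∈ B, f x := by
  rw [← Finset.sum_union_inter]
  have : 0 ≤ ∑ x ∈ A ∩ B, f x := Finset.sum_nonneg fun x _ => hf x
  linarith

/-- Chunk S2A (M). Counting. PROOF. C₁ = A + 5: P = the pairs (j, k) with K / D^(A+5) ≤ |j| < K, k ≠ 0, K² |k| ≤ 2 n, ‖v j k‖ ≥ K M n / D^(A+6). There are at most 4 n/K² values k ≠ 0 with K² |k| ≤ 2 n and (with k = 0)
at most 4 n/K² + 1 ≤ 5 n/K². Pairs with |j| < K/D^(A+5): at most 2 K/D^(A+5) + 1 ≤ 3 K/D^(A+5) values of j (K ≥ D^C), contribution ≤ 3 K/D^(A+5) · 5 n/K² · 6 K M n = 90 M n²/D^(A+5) ... take C₁ larger if necessary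
(90 ≤ 2^7): use |j| ≥ K/D^(A+9): contribution ≤ 90 M n²/D^(A+9) ≤ M n²/(4 D^A). Pairs with k = 0: ≤ 2 K · 6 K M n = 12 K² M n ≤ M n²/(4 D^A) if K² D^(A+6) ≤ n. Pairs with small v: at most 2K · 4n/K² = 8 n/K pairs,
contribution ≤ (8 n/K) K M n/D^(A+5) ≤ M n²/(4 D^A). The rest is ≥ M n²/(4 D^A), each term ≤ 6 K M n: card P ≥ n/(24 K D^A) ≥ n/(K D^(A+5)). So C₁ = A + 9 works everywhere. (M ≥ 1.) -/
theorem step2a (A : ℕ) : ∃ C₁ C : ℕ, ∀ (n K M : ℕ) (D : ℝ), 2 ≤ D → 1 ≤ M → D ^ C ≤ K → (K : ℝ) ^ 2 * D ^ C ≤ n → ∀ v : ℤ → ℤ → ℂ,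
    (∀ j k, ‖v j k‖ ≤ 6 * K * M * n) → (∀ j k, 2 * (n : ℤ) < K ^ 2 * |k| → v j k = 0) →
    (M : ℝ) * n ^ 2 / D ^ A ≤ ∑ j ∈ Ioo (-(K : ℤ)) K, ∑ k ∈ Icc (-(2 * n : ℤ)) (2 * n), ‖v j k‖ →
    ∃ P : Finset (ℤ × ℤ), (n : ℝ) / (K * D ^ C₁) ≤ P.card ∧
      ∀ p ∈ P, (K : ℝ) / D ^ C₁ ≤ |(p.1 : ℝ)| ∧ |p.1| < K ∧ p.2 ≠ 0 ∧ (K : ℝ) * M * n / D ^ C₁ ≤ ‖v p.1 p.2‖ := by
  classical
  refine ⟨A + 8, A + 8, ?_⟩
  intro n K M D hD hM hK hn v hv hv0 hsum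
  obtain ⟨c, hc⟩ : ∃ c, c = A + 8 := ⟨_, rfl⟩
  rw [← hc] at hK hn ⊢
  have hD0 : 0 < D := by linarith
  have hD1 : 1 ≤ D := by linarith
  have hDc : 0 < D ^ c := by positivity
  have hDA : 0 < D ^ A := by positivity
  have hDc1 : 1 ≤ D ^ c := one_le_pow₀ hD1
  have hD8 : (256 : ℝ) ≤ D ^ 8 := by
    calc (256 : ℝ) = 2 ^ 8 := by norm_num
      _ ≤ D ^ 8 := pow_le_pow_left₀ (by norm_num) hD 8
  have hDcA : D ^ c = D ^ A * D ^ 8 := by rw [hc, pow_add]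
  have hK1 : (1 : ℝ) ≤ K := hDc1.trans hK
  have hK0 : (0 : ℝ) < K := by linarith
  have hM1 : (1 : ℝ) ≤ M := by exact_mod_cast hM
  have hM0 : (0 : ℝ) < M := by linarith
  have hnK : (K : ℝ) ^ 2 ≤ n := by
    calc (K : ℝ) ^ 2 = (K : ℝ) ^ 2 * 1 := (mul_one _).symm
      _ ≤ (K : ℝ) ^ 2 * D ^ c := mul_le_mul_of_nonneg_left hDc1 (by positivity)
      _ ≤ n := hn
  have hn1 : (1 : ℝ) ≤ n := by nlinarith
  have hn0 : (0 : ℝ) < n := by linarith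
  obtain ⟨E, hE⟩ : ∃ E : ℝ, E = 6 * K * M * n := ⟨_, rfl⟩
  have hE0 : 0 ≤ E := by rw [hE]; positivity
  rw [← hE] at hv
  set J : Finset ℤ := Ioo (-(K : ℤ)) K with hJ
  set I : Finset ℤ := Icc (-(2 * n : ℤ)) (2 * n) with hI
  set W : Finset ℤ := I.filter (fun k => (K : ℤ) ^ 2 * |k| ≤ 2 * n) with hW
  set J' : Finset ℤ := J.filter (fun j => |(j : ℝ)| < K / D ^ c) with hJ'
  set P : Finset (ℤ × ℤ) := (J ×ˢ W).filter (fun p => (K : ℝ) / D ^ c ≤ |(p.1 : ℝ)| ∧ p.2 ≠ 0 ∧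
    (K : ℝ) * M * n / D ^ c ≤ ‖v p.1 p.2‖) with hP
  set Rs : Finset (ℤ × ℤ) := (J ×ˢ W).filter (fun p => ‖v p.1 p.2‖ < (K : ℝ) * M * n / D ^ c) with hR
  -- cardinalities
  have cJ : (J.card : ℝ) ≤ 2 * K := by
    rw [hJ, Int.card_Ioo]
    have h1 : ((K : ℤ) - -(K : ℤ) - 1).toNat ≤ 2 * K := by omega
    exact_mod_cast h1
  have cW : (W.card : ℝ) ≤ 5 * n / (K : ℝ) ^ 2 := by
    have h1 : W ⊆ Icc (-((2 * n / K ^ 2 : ℕ) : ℤ)) ((2 * n / K ^ 2 : ℕ) : ℤ) := by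
      intro k hk
      have h2 := (mem_filter.1 hk).2
      have hKn : 0 < K ^ 2 := by
        have : 0 < K := by exact_mod_cast hK0
        positivity
      have h3 : K ^ 2 * k.natAbs ≤ 2 * n := by
        have h4 : ((K ^ 2 * k.natAbs : ℕ) : ℤ) ≤ ((2 * n : ℕ) : ℤ) := by
          push_cast
          exact h2
        exact_mod_cast h4
      have h4 : k.natAbs ≤ 2 * n / K ^ 2 := by
        rw [Nat.le_div_iff_mul_le hKn, mul_comm]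
        exact h3
      rw [mem_Icc, ← abs_le]
      rw [Int.abs_eq_natAbs]
      exact_mod_cast h4
    have h2 : (W.card : ℝ) ≤ 2 * ((2 * n / K ^ 2 : ℕ) : ℝ) + 1 := by
      rw [← s2a_icc]
      exact_mod_cast card_le_card h1
    have h3 : ((2 * n / K ^ 2 : ℕ) : ℝ) ≤ (2 * n) / (K : ℝ) ^ 2 := by
      have := @Nat.cast_div_le ℝ _ _ _ (2 * n) (K ^ 2)
      push_cast at this
      exact this
    have h4 : 1 ≤ (n : ℝ) / (K : ℝ) ^ 2 := by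
      rw [le_div_iff₀ (by positivity), one_mul]
      exact hnK
    calc (W.card : ℝ) ≤ 2 * ((2 * n) / (K : ℝ) ^ 2) + (n : ℝ) / (K : ℝ) ^ 2 := by linarith
      _ = 5 * n / (K : ℝ) ^ 2 := by ring
  have cJ' : (J'.card : ℝ) ≤ 3 * K / D ^ c := by
    have h1 : J' ⊆ Icc (-((⌊(K : ℝ) / D ^ c⌋₊ : ℕ) : ℤ)) ((⌊(K : ℝ) / D ^ c⌋₊ : ℕ) : ℤ) := by
      intro j hj
      have h2 := (mem_filter.1 hj).2
      have h3 : j.natAbs ≤ ⌊(K : ℝ) / D ^ c⌋₊ := by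
        refine Nat.le_floor ?_
        rw [Nat.cast_natAbs, Int.cast_abs]
        exact h2.le
      rw [mem_Icc, ← abs_le, Int.abs_eq_natAbs]
      exact_mod_cast h3
    have h2 : (J'.card : ℝ) ≤ 2 * ((⌊(K : ℝ) / D ^ c⌋₊ : ℕ) : ℝ) + 1 := by
      rw [← s2a_icc]
      exact_mod_cast card_le_card h1
    have h3 : ((⌊(K : ℝ) / D ^ c⌋₊ : ℕ) : ℝ) ≤ (K : ℝ) / D ^ c := Nat.floor_le (by positivity)
    have h4 : 1 ≤ (K : ℝ) / D ^ c := by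
      rw [le_div_iff₀ hDc, one_mul]
      exact hK
    calc (J'.card : ℝ) ≤ 2 * ((K : ℝ) / D ^ c) + (K : ℝ) / D ^ c := by linarith
      _ = 3 * K / D ^ c := by ring
  -- the sum is over the union
  have hcov : ∑ j ∈ J, ∑ k ∈ I, ‖v j k‖ ≤
      ∑ p ∈ P ∪ ((J' ×ˢ W) ∪ ((J ×ˢ {0}) ∪ Rs)), ‖v p.1 p.2‖ := by
    rw [← Finset.sum_product']
    rw [← Finset.sum_filter_ne_zero (s := J ×ˢ I) (f := fun p : ℤ × ℤ => ‖v p.1 p.2‖)]
    refine Finset.sum_le_sum_of_subset_of_nonneg (fun p hp' => ?_) (fun p _ _ => norm_nonneg _)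
    obtain ⟨hp, hne⟩ := mem_filter.1 hp'
    obtain ⟨hp1, hp2⟩ := mem_product.1 hp
    have hpW : p.2 ∈ W := by
      refine mem_filter.2 ⟨hp2, ?_⟩
      by_contra h
      push Not at h
      exact hne (by rw [hv0 _ _ h, norm_zero])
    by_cases h1 : |((p.1 : ℤ) : ℝ)| < K / D ^ c
    · exact mem_union_right _ (mem_union_left _ (mem_product.2 ⟨mem_filter.2 ⟨hp1, h1⟩, hpW⟩))
    by_cases h2 : p.2 = 0
    · exact mem_union_right _ (mem_union_right _ (mem_union_left _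
        (mem_product.2 ⟨hp1, mem_singleton.2 h2⟩)))
    by_cases h3 : ‖v p.1 p.2‖ < (K : ℝ) * M * n / D ^ c
    · exact mem_union_right _ (mem_union_right _ (mem_union_right _
        (mem_filter.2 ⟨mem_product.2 ⟨hp1, hpW⟩, h3⟩)))
    · exact mem_union_left _ (mem_filter.2 ⟨mem_product.2 ⟨hp1, hpW⟩, not_lt.1 h1, h2, not_lt.1 h3⟩)
  have hnn : ∀ p : ℤ × ℤ, 0 ≤ ‖v p.1 p.2‖ := fun p => norm_nonneg _
  have hsplit : ∑ p ∈ P ∪ ((J' ×ˢ W) ∪ ((J ×ˢ {0}) ∪ Rs)), ‖v p.1 p.2‖ ≤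
      ∑ p ∈ P, ‖v p.1 p.2‖ + (∑ p ∈ J' ×ˢ W, ‖v p.1 p.2‖ + (∑ p ∈ J ×ˢ ({0} : Finset ℤ), ‖v p.1 p.2‖ +
        ∑ p ∈ Rs, ‖v p.1 p.2‖)) := by
    refine (s2a_union _ _ _ hnn).trans (add_le_add le_rfl ?_)
    refine (s2a_union _ _ _ hnn).trans (add_le_add le_rfl ?_)
    exact s2a_union _ _ _ hnn
  have hbd : ∀ (S : Finset (ℤ × ℤ)) (e : ℝ), (∀ p ∈ S, ‖v p.1 p.2‖ ≤ e) →
      ∑ p ∈ S, ‖v p.1 p.2‖ ≤ S.card * e := by
    intro S e h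
    refine (Finset.sum_le_sum h).trans (le_of_eq ?_)
    rw [Finset.sum_const, nsmul_eq_mul]
  have b1 := hbd P E fun p _ => hv _ _
  have b2 : ∑ p ∈ J' ×ˢ W, ‖v p.1 p.2‖ ≤ 90 * (M * n ^ 2 / D ^ c) := by
    refine (hbd (J' ×ˢ W) E fun p _ => hv _ _).trans ?_
    rw [card_product, Nat.cast_mul]
    calc (J'.card : ℝ) * W.card * E ≤ (3 * K / D ^ c) * (5 * n / (K : ℝ) ^ 2) * E := by
          refine mul_le_mul_of_nonneg_right ?_ hE0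
          exact mul_le_mul cJ' cW (Nat.cast_nonneg _) (by positivity)
      _ = 90 * (M * n ^ 2 / D ^ c) := by
          rw [hE]
          field_simp
          ring
  have b3 : ∑ p ∈ J ×ˢ ({0} : Finset ℤ), ‖v p.1 p.2‖ ≤ 12 * (M * n ^ 2 / D ^ c) := by
    refine (hbd (J ×ˢ ({0} : Finset ℤ)) E fun p _ => hv _ _).trans ?_
    rw [card_product, card_singleton, mul_one]
    have h1 : (K : ℝ) ^ 2 ≤ n / D ^ c := by
      rw [le_div_iff₀ hDc]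
      exact hn
    calc (J.card : ℝ) * E ≤ (2 * K) * E := mul_le_mul_of_nonneg_right cJ hE0
      _ = 12 * (M * n * (K : ℝ) ^ 2) := by
          rw [hE]
          ring
      _ ≤ 12 * (M * n * (n / D ^ c)) := by
          refine mul_le_mul_of_nonneg_left ?_ (by norm_num)
          exact mul_le_mul_of_nonneg_left h1 (by positivity)
      _ = 12 * (M * n ^ 2 / D ^ c) := by ring
  have b4 : ∑ p ∈ Rs, ‖v p.1 p.2‖ ≤ 10 * (M * n ^ 2 / D ^ c) := by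
    refine (hbd Rs ((K : ℝ) * M * n / D ^ c) fun p hp => (mem_filter.1 hp).2.le).trans ?_
    have h1 : (Rs.card : ℝ) ≤ (2 * K) * (5 * n / (K : ℝ) ^ 2) := by
      have h2 : (Rs.card : ℝ) ≤ (J ×ˢ W).card := by exact_mod_cast card_filter_le _ _
      rw [card_product, Nat.cast_mul] at h2
      exact h2.trans (mul_le_mul cJ cW (Nat.cast_nonneg _) (by positivity))
    calc (Rs.card : ℝ) * ((K : ℝ) * M * n / D ^ c)
        ≤ (2 * K) * (5 * n / (K : ℝ) ^ 2) * ((K : ℝ) * M * n / D ^ c) :=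
          mul_le_mul_of_nonneg_right h1 (by positivity)
      _ = 10 * (M * n ^ 2 / D ^ c) := by
          field_simp
          ring
  have hX : 112 * ((M : ℝ) * n ^ 2 / D ^ c) ≤ 1 / 2 * (M * n ^ 2 / D ^ A) := by
    rw [hDcA, ← div_div]
    obtain ⟨Y, hY⟩ : ∃ Y : ℝ, Y = (M : ℝ) * n ^ 2 / D ^ A := ⟨_, rfl⟩
    have hY0 : 0 ≤ Y := by rw [hY]; positivity
    rw [← hY, mul_div_assoc', div_le_iff₀ (by positivity)]
    nlinarith
  have hfin : 1 / 2 * ((M : ℝ) * n ^ 2 / D ^ A) ≤ P.card * E := by linarith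
  refine ⟨P, ?_, fun p hp => ?_⟩
  · have h1 : (n : ℝ) / (12 * K * D ^ A) ≤ P.card := by
      have h2 : (n : ℝ) / (12 * K * D ^ A) * E = 1 / 2 * ((M : ℝ) * n ^ 2 / D ^ A) := by
        rw [hE]
        field_simp
        ring
      rw [← h2] at hfin
      exact le_of_mul_le_mul_right hfin (by rw [hE]; positivity)
    refine le_trans ?_ h1
    refine div_le_div_of_nonneg_left hn0.le (by positivity) ?_
    rw [hDcA]
    have h3 : 0 < K * D ^ A := by positivity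
    nlinarith
  · obtain ⟨h1, h2, h3, h4⟩ := mem_filter.1 hp
    have h5 := mem_Ioo.1 (mem_product.1 h1).1
    exact ⟨h2, abs_lt.2 h5, h3, h4⟩

end Pool.Agent.H3B
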