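import Mathlib
import Pool.Agent.Lib.H3B.D0
import Pool.Agent.Lib.H3B.A3
import Pool.Agent.Lib.H3B.SY
import Pool.Agent.Lib.H3B.TP

/-! # H3B (MP_443e5f, candidate T, module B), chunk S2B -/

namespace Pool.Agent.H3B

open Finset
open Pool.Agent.H44W (ee TF cut tII)

/-- Chunk S2B (M). The second choice of a frequency. PROOF. TP1 with N := 2 n, ρ l = ∑_{a in Ij K j} R (Gd g (a (a+j) k)) (j l), En φ = ∑_a E |j| (tw (φ/j) (Gd g (a (a+j) k))) (E_exp, R_out because |j| ≥ 1), T = image of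
Ioo (-M) M under h ↦ 2 h, c (2h) = ee(-(ψ h j k)), L = 2 M, η = 1/(24 D^A), ‖ρ 0‖ ≤ K · 3 n: K M n/D^A ≤ ‖val‖ ≤ η · 2 M · 3 K n + En φ/η, η · 6 K M n = K M n/(4 D^A): En φ ≥ η (3/4) K M n/D^A = K M n/(32 D^(2A))
≥ n²/(32 D^(2A+1)) (n ≤ D K M) ≥ n²/D^(2A+6). θ = φ/j. (If E_exp is used with the natural number |j|, note tw (φ/j).) -/
theorem step2b {n K M A : ℕ} {D : ℝ} (hD : 2 ≤ D) (hn : 1 ≤ n) (hM : 1 ≤ M) (hnKM : (n : ℝ) ≤ D * K * M) {g : ℤ → ℂ} (hg : ∀ z, ‖g z‖ ≤ 1)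
    (hs : Sp n g) (ψ : ℤ → ℝ) {j k : ℤ} (hj : j ≠ 0) (hv : (K : ℝ) * M * n / D ^ A ≤ ‖val g K M ψ j k‖) :
    ∃ θ : ℝ, (n : ℝ) ^ 2 / D ^ (2 * A + 6) ≤ ∑ a ∈ Ij K j, E j.natAbs (tw θ (Gd g (a * (a + j) * k))) := by
  obtain ⟨En, hEn⟩ : ∃ En : ℝ → ℝ, ∀ φ, En φ = ∑ a ∈ Ij K j, E j.natAbs (tw (φ / j) (Gd g (a * (a + j) * k))) :=
    ⟨_, fun _ => rfl⟩
  obtain ⟨ρ, hρd⟩ : ∃ ρ : ℤ → ℂ, ∀ l, ρ l = ∑ a ∈ Ij K j, R (Gd g (a * (a + j) * k)) (j * l) := ⟨_, fun _ => rfl⟩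
  have hE0 : ∀ φ, 0 ≤ En φ := by
    intro φ
    rw [hEn]
    exact Finset.sum_nonneg fun a _ => E_nonneg _ _
  have hcast : ((2 * n : ℕ) : ℤ) = 2 * (n : ℤ) := by push_cast; rfl
  have hρ : ∀ l, l ∉ Icc (-((2 * n : ℕ) : ℤ)) ((2 * n : ℕ) : ℤ) → ρ l = 0 := by
    intro l hl
    rw [hρd]
    refine Finset.sum_eq_zero fun a _ => R_out (hs.Gd _) ?_
    rw [hcast, mem_Icc, ← abs_le, not_le] at hl
    rw [abs_mul]
    have h1 : 1 ≤ |j| := Int.one_le_abs hj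
    nlinarith [abs_nonneg l]
  have hexp : ∀ φ, ((En φ : ℝ) : ℂ) = ∑ l ∈ Icc (-((2 * n : ℕ) : ℤ)) ((2 * n : ℕ) : ℤ), ρ l * ee (φ * l) := by
    intro φ
    rw [hEn, Complex.ofReal_sum, hcast]
    rw [Finset.sum_congr rfl fun (a : ℕ) _ => E_exp (hs.Gd ((a : ℤ) * (a + j) * k)) hj φ, Finset.sum_comm]
    refine Finset.sum_congr rfl fun l _ => ?_
    rw [hρd, Finset.sum_mul]
  obtain ⟨T, hT⟩ : ∃ T : Finset ℤ, T = (Ioo (-(M : ℤ)) M).image (fun h => 2 * h) := ⟨_, rfl⟩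
  have hTc : (T.card : ℝ) ≤ 2 * M := by
    have h1 : T.card ≤ 2 * M := by
      rw [hT]
      refine Finset.card_image_le.trans ?_
      rw [Int.card_Ioo]
      omega
    exact_mod_cast h1
  have hD0 : (0 : ℝ) < D := by linarith
  have hP : 0 < D ^ A := by positivity
  have hMR : (1 : ℝ) ≤ M := by exact_mod_cast hM
  have hnR : (1 : ℝ) ≤ n := by exact_mod_cast hn
  obtain ⟨φ, hφ⟩ := TP1 hρ En hE0 hexp T (fun l => ee (-(ψ (l / 2) * j * k))) (fun h => (ee_norm _).le)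
    (η := 1 / (24 * D ^ A)) (L := 2 * M) (by positivity) (by linarith) hTc
  refine ⟨φ / j, ?_⟩
  rw [← hEn]
  have hval : ∑ l ∈ T, ee (-(ψ (l / 2) * j * k)) * ρ l = val g K M ψ j k := by
    rw [hT, Finset.sum_image (fun x _ y _ h => by simpa using h)]
    unfold val
    refine Finset.sum_congr rfl fun h _ => ?_
    rw [hρd, Int.mul_ediv_cancel_left _ two_ne_zero]
  rw [hval] at hφ
  have hρ0 : ‖ρ 0‖ ≤ K * (3 * n) := by
    rw [hρd]
    refine (norm_sum_le _ _).trans ((Finset.sum_le_sum fun a _ => R_bound hs hg hn _ _).trans ?_)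
    rw [Finset.sum_const, nsmul_eq_mul]
    refine mul_le_mul_of_nonneg_right ?_ (by positivity)
    have h1 : (Ij K j).card ≤ K := by
      unfold Ij
      refine (Finset.card_filter_le _ _).trans ?_
      rw [Nat.card_Ico]
      omega
    exact_mod_cast h1
  have h1 : (K : ℝ) * M * n / D ^ A ≤ K * M * n / (4 * D ^ A) + 24 * D ^ A * En φ := by
    refine hv.trans (hφ.trans ?_)
    have h2 : 1 / (24 * D ^ A) * (2 * M) * ‖ρ 0‖ ≤ 1 / (24 * D ^ A) * (2 * M) * (K * (3 * n)) :=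
      mul_le_mul_of_nonneg_left hρ0 (by positivity)
    have h3 : 1 / (24 * D ^ A) * (2 * M) * (K * (3 * n)) = K * M * n / (4 * D ^ A) := by
      field_simp
      ring
    have h4 : En φ / (1 / (24 * D ^ A)) = 24 * D ^ A * En φ := by
      field_simp
    rw [h4]
    linarith
  have h2 : (K : ℝ) * M * n / (32 * (D ^ A) ^ 2) ≤ En φ := by
    have h3 : (K : ℝ) * M * n / D ^ A = K * M * n / (4 * D ^ A) + 24 * D ^ A * (K * M * n / (32 * (D ^ A) ^ 2)) := by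
      field_simp
      ring
    rw [h3] at h1
    have h4 : 24 * D ^ A * (K * M * n / (32 * (D ^ A) ^ 2)) ≤ 24 * D ^ A * En φ := by linarith
    exact le_of_mul_le_mul_left h4 (by positivity)
  refine le_trans ?_ h2
  have h3 : D ^ (2 * A + 6) = (D ^ A) ^ 2 * (D ^ 5 * D) := by ring
  have h4 : (32 : ℝ) ≤ D ^ 5 := by
    calc (32 : ℝ) = 2 ^ 5 := by norm_num
      _ ≤ D ^ 5 := pow_le_pow_left₀ (by norm_num) hD 5
  rw [h3, div_le_div_iff₀ (by positivity) (by positivity)]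
  have h5 : (n : ℝ) ^ 2 ≤ D * (K * M * n) := by
    calc (n : ℝ) ^ 2 = n * n := by ring
      _ ≤ (D * K * M) * n := mul_le_mul_of_nonneg_right hnKM (by linarith)
      _ = _ := by ring
  have h6 : 0 ≤ (K : ℝ) * M * n := by positivity
  calc (n : ℝ) ^ 2 * (32 * (D ^ A) ^ 2) ≤ (D * (K * M * n)) * (32 * (D ^ A) ^ 2) :=
        mul_le_mul_of_nonneg_right h5 (by positivity)
    _ = K * M * n * ((D ^ A) ^ 2 * (32 * D)) := by ring
    _ ≤ K * M * n * ((D ^ A) ^ 2 * (D ^ 5 * D)) := by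
        refine mul_le_mul_of_nonneg_left ?_ h6
        refine mul_le_mul_of_nonneg_left ?_ (by positivity)
        exact mul_le_mul_of_nonneg_right h4 hD0.le

end Pool.Agent.H3B
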