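import Mathlib
import Pool.Agent.Lib.H3B.S0E
import Pool.Agent.Lib.H3B.S1A
import Pool.Agent.Lib.H3B.S1B
import Pool.Agent.Lib.H3B.S2A
import Pool.Agent.Lib.H3B.S2B

/-! # H3B (MP_443e5f, candidate T, module B), chunk FN -/

namespace Pool.Agent.H3B

open Finset
open Pool.Agent.H44W (ee TF cut tII)

theorem fn_pow4 {s : Finset ℤ} {M : ℕ} (hs : (s.card : ℝ) ≤ 2 * M) (X : ℤ → ℝ) :
    (∑ h ∈ s, X h) ^ 4 ≤ 8 * (M : ℝ) ^ 3 * ∑ h ∈ s, X h ^ 4 := by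
  have h1 : (∑ h ∈ s, X h) ^ 2 ≤ s.card * ∑ h ∈ s, X h ^ 2 := sq_sum_le_card_mul_sum_sq
  have h2 : (∑ h ∈ s, X h ^ 2) ^ 2 ≤ s.card * ∑ h ∈ s, (X h ^ 2) ^ 2 := sq_sum_le_card_mul_sum_sq
  have h3 : ∑ h ∈ s, (X h ^ 2) ^ 2 = ∑ h ∈ s, X h ^ 4 := sum_congr rfl fun h _ => by ring
  rw [h3] at h2
  have h4 : 0 ≤ ∑ h ∈ s, X h ^ 4 := sum_nonneg fun h _ => by positivity
  have h5 : (0 : ℝ) ≤ s.card := Nat.cast_nonneg _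
  calc (∑ h ∈ s, X h) ^ 4 = ((∑ h ∈ s, X h) ^ 2) ^ 2 := by ring
    _ ≤ (s.card * ∑ h ∈ s, X h ^ 2) ^ 2 := pow_le_pow_left₀ (sq_nonneg _) h1 2
    _ = (s.card : ℝ) ^ 2 * (∑ h ∈ s, X h ^ 2) ^ 2 := by ring
    _ ≤ (s.card : ℝ) ^ 2 * (s.card * ∑ h ∈ s, X h ^ 4) := mul_le_mul_of_nonneg_left h2 (by positivity)
    _ = (s.card : ℝ) ^ 3 * ∑ h ∈ s, X h ^ 4 := by ring
    _ ≤ (2 * (M : ℝ)) ^ 3 * ∑ h ∈ s, X h ^ 4 :=
        mul_le_mul_of_nonneg_right (pow_le_pow_left₀ h5 hs 3) h4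
    _ = 8 * (M : ℝ) ^ 3 * ∑ h ∈ s, X h ^ 4 := by ring

theorem fn_card (M : ℕ) : ((Ioo (-(M : ℤ)) M).card : ℝ) ≤ 2 * M := by
  rw [Int.card_Ioo]
  have h : ((M : ℤ) - -(M : ℤ) - 1).toNat ≤ 2 * M := by omega
  exact_mod_cast h

/-- The numbers of steps 0 and 1. -/
theorem fn_num {M n D X Y : ℝ} (hM : 0 < M) (hn : 0 < n) (hD : 2 ≤ D) (h0 : M * n ^ 2 / D ^ 20 ≤ X)
    (h1 : X ^ 4 ≤ 8 * M ^ 3 * (3000 * n ^ 6 * Y)) : M * n ^ 2 / D ^ 95 ≤ Y := by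
  have hD0 : 0 < D := by linarith
  obtain ⟨d, hd⟩ : ∃ d : ℝ, d = D ^ 20 := ⟨_, rfl⟩
  obtain ⟨e, he⟩ : ∃ e : ℝ, e = D ^ 15 := ⟨_, rfl⟩
  have hd0 : 0 < d := by rw [hd]; positivity
  have he0 : 24000 ≤ e := by
    rw [he]
    calc (24000 : ℝ) ≤ 2 ^ 15 := by norm_num
      _ ≤ D ^ 15 := pow_le_pow_left₀ (by norm_num) hD 15
  have hde : D ^ 95 = d ^ 4 * e := by rw [hd, he, ← pow_mul, ← pow_add]
  rw [← hd] at h0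
  rw [hde]
  have h2 : (M * n ^ 2 / d) ^ 4 ≤ X ^ 4 := pow_le_pow_left₀ (by positivity) h0 4
  have h3 : (M * n ^ 2 / d) ^ 4 ≤ 8 * M ^ 3 * (3000 * n ^ 6 * Y) := h2.trans h1
  rw [div_pow, div_le_iff₀ (by positivity)] at h3
  rw [div_le_iff₀ (by positivity)]
  have h4 : (M ^ 3 * n ^ 6) * (M * n ^ 2) ≤ (M ^ 3 * n ^ 6) * (24000 * Y * d ^ 4) := by
    calc (M ^ 3 * n ^ 6) * (M * n ^ 2) = (M * n ^ 2) ^ 4 := by ring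
      _ ≤ _ := h3
      _ = (M ^ 3 * n ^ 6) * (24000 * Y * d ^ 4) := by ring
  have h5 : M * n ^ 2 ≤ 24000 * Y * d ^ 4 := le_of_mul_le_mul_left h4 (by positivity)
  have hY : 0 ≤ Y := by
    by_contra hc
    have h6 : 24000 * Y * d ^ 4 < 0 := by
      apply mul_neg_of_neg_of_pos
      · linarith
      · positivity
    have h7 : 0 < M * n ^ 2 := by positivity
    linarith
  calc M * n ^ 2 ≤ 24000 * Y * d ^ 4 := h5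
    _ = 24000 * (Y * d ^ 4) := by ring
    _ ≤ e * (Y * d ^ 4) := mul_le_mul_of_nonneg_right he0 (by positivity)
    _ = Y * (d ^ 4 * e) := by ring

/-- Chunk FN (S/M). Steps 0, 1, 2 together. PROOF. n ≤ D K M (TF_le), K M ≤ 2 n (KM_le), M ≥ 1 (TF ≠ 0). step0: M n²/D²⁰ ≤ ∑_h X_h, X_h = ∑_a E_a. step1a with H = 2 h: X_h⁴ ≤ 3000 n⁶ Y_h. (∑_h X_h)⁴ ≤ (2M)³ ∑ X_h⁴ ≤ 8 M³ · 3000 n⁶ ∑ Y_h,
so ∑ Y_h ≥ M⁴ n⁸/(D⁸⁰ · 24000 M³ n⁶) = M n²/(24000 D⁸⁰) ≥ M n²/D⁹⁵. step1b, triangle inequality, step2a with A = 95, v = val (val_bound, val_zero), step2b. (2 K ≤ n because K² D^C ≤ n, K ≥ D^C.) -/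
theorem steps012 : ∃ A C : ℕ, ∀ (n K M : ℕ) (D : ℝ), 2 ≤ D → D ^ C ≤ K → (K : ℝ) ^ 2 * D ^ C ≤ n →
    ∀ al be : ℕ → ℂ, (∀ a, ‖al a‖ ≤ 1) → (∀ b, ‖be b‖ ≤ 1) → ∀ W f g : ℤ → ℂ, (∀ x, ‖W x‖ ≤ 1) → (∀ x, ‖f x‖ ≤ 1) → (∀ x, ‖g x‖ ≤ 1) →
    (n : ℝ) ^ 2 / D ≤ ‖TF n (tII K M al be) W f g‖ →
    ∃ P : Finset (ℤ × ℤ), (n : ℝ) / (K * D ^ A) ≤ P.card ∧ ∀ p ∈ P, (K : ℝ) / D ^ A ≤ |(p.1 : ℝ)| ∧ |p.1| < K ∧ p.2 ≠ 0 ∧
      ∃ θ : ℝ, (n : ℝ) ^ 2 / D ^ A ≤ ∑ a ∈ Ij K p.1, E p.1.natAbs (tw θ (Gd (cut n g) (a * (a + p.1) * p.2))) := by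
  obtain ⟨C₁, C₂, h2a⟩ := step2a 95
  refine ⟨2 * C₁ + 6, C₂ + 1, ?_⟩
  intro n K M D hD hDK hKn al be hal hbe W f g hW hf hg hT
  have hD0 : 0 < D := by linarith
  have hD1 : 1 ≤ D := by linarith
  have hDC : 2 ≤ D ^ (C₂ + 1) := by
    calc (2 : ℝ) ≤ D := hD
      _ = D ^ 1 := (pow_one D).symm
      _ ≤ D ^ (C₂ + 1) := pow_le_pow_right₀ hD1 (by omega)
  have hK2 : (2 : ℝ) ≤ K := hDC.trans hDK
  have hK : 1 ≤ K := by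
    have : (1 : ℝ) ≤ K := by linarith
    exact_mod_cast this
  have hn2K : 2 * (K : ℝ) ≤ n := by
    calc 2 * (K : ℝ) ≤ (K : ℝ) ^ 2 * 1 := by nlinarith
      _ ≤ (K : ℝ) ^ 2 * D ^ (C₂ + 1) := mul_le_mul_of_nonneg_left (by linarith) (by positivity)
      _ ≤ n := hKn
  have hn2 : 2 * K ≤ n := by exact_mod_cast hn2K
  have hn : 1 ≤ n := by omega
  have hnr : (1 : ℝ) ≤ n := by exact_mod_cast hn
  have hn0 : (0 : ℝ) < n := by linarith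
  have hle := TF_le n K M al be hal hbe W f g hW hf hg
  have h1 : (n : ℝ) ^ 2 / D ≤ K * M * n := hT.trans hle
  have hnKM : (n : ℝ) ≤ D * K * M := by
    rw [div_le_iff₀ hD0] at h1
    have h2 : (n : ℝ) * n ≤ (D * K * M) * n := by
      calc (n : ℝ) * n = (n : ℝ) ^ 2 := by ring
        _ ≤ K * M * n * D := h1
        _ = (D * K * M) * n := by ring
    exact le_of_mul_le_mul_right h2 hn0
  have hM : 1 ≤ M := by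
    rcases Nat.eq_zero_or_pos M with h | h
    · exfalso
      rw [h] at hnKM
      simp at hnKM
      omega
    · exact h
  have hMr : (1 : ℝ) ≤ M := by exact_mod_cast hM
  have hM0 : (0 : ℝ) < M := by linarith
  have hTne : TF n (tII K M al be) W f g ≠ 0 := by
    intro h0
    rw [h0, norm_zero] at hT
    have : 0 < (n : ℝ) ^ 2 / D := by positivity
    linarith
  have hKM := KM_le n K M al be W f g hTne
  obtain ⟨ψ, hψ⟩ := step0 hD hn hK hKM al be hal hbe W f g hW hf hg hT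
  have hgs : Sp n (cut n g) := cut_Sp n g
  have hgn : ∀ z, ‖cut n g z‖ ≤ 1 := cut_norm hg
  -- step 1
  obtain ⟨X, hX⟩ : ∃ X : ℤ → ℝ, ∀ h, X h = ∑ a ∈ Ico K (2 * K),
    E a (tw (ψ h / a) (Gd (cut n g) (a * (2 * h)))) := ⟨_, fun _ => rfl⟩
  obtain ⟨Y, hY⟩ : ∃ Y : ℤ → ℝ, ∀ h, Y h = ∑ a ∈ Ico K (2 * K), ∑ a' ∈ Ico K (2 * K),
    E (a * a') (tw (-(ψ h * ((a' : ℝ) - a)) / ((a * a' : ℕ) : ℝ)) (Gd (cut n g) (((a' : ℤ) - a) * (2 * h)))) :=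
      ⟨_, fun _ => rfl⟩
  have hXY : ∀ h, X h ^ 4 ≤ 3000 * n ^ 6 * Y h := by
    intro h
    rw [hX h, hY h]
    exact step1a hK hn2 hgn hgs (2 * h) (ψ h)
  have hX0 : (M : ℝ) * n ^ 2 / D ^ 20 ≤ ∑ h ∈ Ioo (-(M : ℤ)) M, X h := by
    refine hψ.trans (le_of_eq (sum_congr rfl fun h _ => ?_))
    rw [hX h]
  have hX4 : (∑ h ∈ Ioo (-(M : ℤ)) M, X h) ^ 4 ≤ 8 * (M : ℝ) ^ 3 * (3000 * n ^ 6 * ∑ h ∈ Ioo (-(M : ℤ)) M, Y h) := by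
    refine (fn_pow4 (fn_card M) X).trans ?_
    apply mul_le_mul_of_nonneg_left _ (by positivity)
    rw [mul_sum]
    exact sum_le_sum fun h _ => hXY h
  have hYl := fn_num hM0 hn0 hD hX0 hX4
  have hYv : ∑ h ∈ Ioo (-(M : ℤ)) M, Y h ≤
      ∑ j ∈ Ioo (-(K : ℤ)) K, ∑ k ∈ Icc (-(2 * n : ℤ)) (2 * n), ‖val (cut n g) K M ψ j k‖ := by
    have h3 := step1b (M := M) (n := n) hK hgs ψ
    have h4 : ∑ h ∈ Ioo (-(M : ℤ)) M, Y h = ∑ h ∈ Ioo (-(M : ℤ)) M, ∑ a ∈ Ico K (2 * K), ∑ a' ∈ Ico K (2 * K),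
      E (a * a') (tw (-(ψ h * ((a' : ℝ) - a)) / ((a * a' : ℕ) : ℝ)) (Gd (cut n g) (((a' : ℤ) - a) * (2 * h)))) :=
      sum_congr rfl fun h _ => hY h
    rw [← h4] at h3
    calc ∑ h ∈ Ioo (-(M : ℤ)) M, Y h ≤ ‖((∑ h ∈ Ioo (-(M : ℤ)) M, Y h : ℝ) : ℂ)‖ := by
          rw [Complex.norm_real]
          exact le_abs_self _
      _ ≤ _ := by
          rw [h3]
          refine (norm_sum_le _ _).trans (sum_le_sum fun j _ => norm_sum_le _ _)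
  -- step 2
  have hDK2 : D ^ C₂ ≤ K := (pow_le_pow_right₀ hD1 (by omega)).trans hDK
  have hKn2 : (K : ℝ) ^ 2 * D ^ C₂ ≤ n :=
    (mul_le_mul_of_nonneg_left (pow_le_pow_right₀ hD1 (by omega)) (by positivity)).trans hKn
  obtain ⟨P, hP1, hP2⟩ := h2a n K M D hD hM hDK2 hKn2 (fun j k => val (cut n g) K M ψ j k)
    (fun j k => val_bound hn hgn hgs ψ j k) (fun j k hk => val_zero hK hgs ψ j k hk) (hYl.trans hYv)
  have hpow : D ^ C₁ ≤ D ^ (2 * C₁ + 6) := pow_le_pow_right₀ hD1 (by omega)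
  have hpow0 : 0 < D ^ C₁ := by positivity
  have hKr0 : (0 : ℝ) < K := by linarith
  refine ⟨P, ?_, ?_⟩
  · refine le_trans ?_ hP1
    apply div_le_div_of_nonneg_left hn0.le (by positivity)
    exact mul_le_mul_of_nonneg_left hpow hKr0.le
  · intro p hp
    obtain ⟨q1, q2, q3, q4⟩ := hP2 p hp
    have hj : p.1 ≠ 0 := by
      intro h0
      rw [h0] at q1
      have : 0 < (K : ℝ) / D ^ C₁ := by positivity
      simp only [Int.cast_zero, abs_zero] at q1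
      linarith
    refine ⟨?_, q2, q3, step2b hD hn hM hnKM hgn hgs ψ hj q4⟩
    refine le_trans ?_ q1
    exact div_le_div_of_nonneg_left hKr0.le hpow0 hpow

end Pool.Agent.H3B
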