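import Pool.Agent.Lib.H3B.Defs
import Pool.Agent.Lib.H81W.S6

/-!
# H3B, steps 3 and 4 (from many pairs `(j, k)` with large energies to one large exponential sum). Proof: library H81W.
-/

namespace Pool.Agent.H3B

open Finset
open Pool.Agent.H44W (ee TF cut)

/-- The two definitions of the energy agree. -/
theorem s34_E (n m : ℕ) (hm : 0 < m) (u : ℤ → ℂ) (hu : ∀ y, y ∉ Icc (1 : ℤ) n → u y = 0) : E m u = Pool.Agent.Lib.H81W.En n m u := by
  classical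
  have hm0 : (0 : ℤ) < m := by exact_mod_cast hm
  unfold E Pool.Agent.Lib.H81W.En
  have h1 : ∑ r ∈ Ico (0 : ℤ) m, ‖Pool.Agent.Lib.H81W.Sr n m u r‖ ^ 2 = ∑ r ∈ range m, ‖Pool.Agent.Lib.H81W.Sr n m u (r : ℤ)‖ ^ 2 := by
    symm
    refine sum_bij' (fun r _ => (r : ℤ)) (fun r _ => r.toNat) ?_ ?_ ?_ ?_ ?_
    · intro r hr
      rw [mem_range] at hr
      rw [mem_Ico]
      omega
    · intro r hr
      rw [mem_Ico] at hr
      rw [mem_range]
      omega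
    · intro r _
      omega
    · intro r hr
      rw [mem_Ico] at hr
      omega
    · intro r _
      rfl
  rw [h1]
  refine sum_congr rfl fun r hr => ?_
  rw [mem_range] at hr
  have hr0 : ((r : ℤ)) % m = r := Int.emod_eq_of_lt (by omega) (by omega)
  congr 2
  unfold Pool.Agent.Lib.H81W.Sr
  rw [tsum_eq_sum (s := ((Icc (1 : ℤ) (n : ℤ)).filter (fun y : ℤ => y % (m : ℤ) = (r : ℤ))).image (fun y : ℤ => y / (m : ℤ)))]
  · rw [sum_image]
    · refine sum_congr rfl fun y hy => ?_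
      rw [mem_filter] at hy
      rw [← hy.2, add_comm, Int.mul_ediv_add_emod]
    · intro y hy z hz h
      rw [mem_coe, mem_filter] at hy hz
      have h2 := Int.mul_ediv_add_emod y m
      have h3 := Int.mul_ediv_add_emod z m
      simp only at h
      rw [← h2, ← h3, h, hy.2, hz.2]
  · intro v hv
    apply hu
    intro h
    apply hv
    rw [mem_image]
    refine ⟨(r : ℤ) + m * v, ?_, ?_⟩
    · rw [mem_filter]
      exact ⟨h, by rw [Int.add_mul_emod_self_left, hr0]⟩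
    · rw [Int.add_mul_ediv_left _ _ hm0.ne', Int.ediv_eq_zero_of_lt (by omega) (by omega), zero_add]

theorem s34_sum (K : ℕ) (j : ℤ) (F : ℤ → ℝ) : ∑ a ∈ Ij K j, F a = ∑ a ∈ Pool.Agent.Lib.H81W.Aj K j, F a := by
  refine sum_bij' (fun a _ => (a : ℤ)) (fun a _ => a.toNat) ?_ ?_ ?_ ?_ ?_
  · intro a ha
    unfold Ij at ha
    rw [mem_filter, mem_Ico] at ha
    rw [Pool.Agent.Lib.H81W.mem_Aj]
    omega
  · intro a ha
    rw [Pool.Agent.Lib.H81W.mem_Aj] at ha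
    unfold Ij
    rw [mem_filter, mem_Ico]
    omega
  · intro a _
    omega
  · intro a ha
    rw [Pool.Agent.Lib.H81W.mem_Aj] at ha
    omega
  · intro a _
    rfl

/-- Steps 3 and 4. -/
theorem step34 (A : ℕ) : ∃ C : ℕ, ∀ (n K : ℕ) (D : ℝ), 2 ≤ D → (∀ m : ℕ, 1 ≤ m → m ≤ 2 * n → (m.divisors.card : ℝ) ≤ D) →
    D ^ C ≤ K → (K : ℝ) ^ 2 * D ^ C ≤ n → ∀ g : ℤ → ℂ, (∀ z, ‖g z‖ ≤ 1) → (∀ y : ℤ, y ∉ Icc (1 : ℤ) n → g y = 0) →
    ∀ P : Finset (ℤ × ℤ), (n : ℝ) / (K * D ^ A) ≤ P.card →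
    (∀ p ∈ P, (K : ℝ) / D ^ A ≤ |(p.1 : ℝ)| ∧ |p.1| < K ∧ p.2 ≠ 0 ∧
      ∃ θ : ℝ, (n : ℝ) ^ 2 / D ^ A ≤ ∑ a ∈ Ij K p.1, E p.1.natAbs (tw θ (Gd g (a * (a + p.1) * p.2)))) →
    ∃ θ : ℝ, (n : ℝ) / D ^ C ≤ ‖∑' y : ℤ, g y * ee (-(θ * y))‖ := by
  refine ⟨8 * A + 11, fun n K D h2 hD hK hKn g hg hs P hPc hP => ?_⟩
  have hD1 : (1 : ℝ) ≤ D := by linarith
  have hD0 : (0 : ℝ) < D := by linarith
  have hKr : (0 : ℝ) < K := lt_of_lt_of_le (by positivity) hK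
  obtain ⟨th, h⟩ := Pool.Agent.Lib.H81W.step34 A n K D h2 hD hK hKn g hg hs P hPc fun p hp => by
    obtain ⟨h3, h4, h5, θ, h6⟩ := hP p hp
    refine ⟨h3, h4, h5, -θ, ?_⟩
    have h7 : (0 : ℝ) < |(p.1 : ℝ)| := lt_of_lt_of_le (by positivity) h3
    have h8 : p.1 ≠ 0 := by
      intro h0
      rw [h0, Int.cast_zero, abs_zero] at h7
      exact lt_irrefl _ h7
    refine h6.trans (le_of_eq ?_)
    rw [s34_sum K p.1 (fun a => E p.1.natAbs (tw θ (Gd g (a * (a + p.1) * p.2))))]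
    refine sum_congr rfl fun a _ => ?_
    rw [s34_E n p.1.natAbs (by omega)]
    · congr 1
      funext y
      unfold tw
      rw [neg_mul]
      rfl
    · intro y hy
      unfold tw Gd
      rw [hs y hy, zero_mul, zero_mul]
  refine ⟨-th, ?_⟩
  have h3 : ∑' y : ℤ, g y * ee (-(-th * y)) = ∑ y ∈ Icc (1 : ℤ) n, g y * ee (th * y) := by
    rw [tsum_eq_sum (s := Icc (1 : ℤ) n)]
    · refine sum_congr rfl fun y _ => ?_
      rw [neg_mul, neg_neg]
    · intro y hy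
      rw [hs y hy, zero_mul]
  rw [h3]
  refine le_trans ?_ h
  exact div_le_div_of_nonneg_left (Nat.cast_nonneg n) (by positivity) (pow_le_pow_right₀ hD1 (by omega))

end Pool.Agent.H3B
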