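import Mathlib
import Pool.Agent.Lib.H3B.FN
import Pool.Agent.Lib.H3B.S34

/-! # H3B (MP_443e5f, candidate T, module B): the theorem -/

namespace Pool.Agent.H3B

open Finset
open Pool.Agent.H44W (ee TF cut tII ClassTwo)

/-- **Module B.** -/
theorem class_two : ∃ C : ℕ, ClassTwo C := by
  obtain ⟨A, C₁, h1⟩ := steps012
  obtain ⟨C₂, h2⟩ := step34 A
  refine ⟨max C₁ C₂, ?_⟩
  intro n K M D hD hdiv hK hKn al be hal hbe W f g hW hf hg hT
  have hD1 : (1 : ℝ) ≤ D := by linarith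
  have hD0 : (0 : ℝ) < D := by linarith
  have p1 : D ^ C₁ ≤ D ^ max C₁ C₂ := pow_le_pow_right₀ hD1 (le_max_left _ _)
  have p2 : D ^ C₂ ≤ D ^ max C₁ C₂ := pow_le_pow_right₀ hD1 (le_max_right _ _)
  have hKK : (0 : ℝ) ≤ (K : ℝ) ^ 2 := by positivity
  obtain ⟨P, hP, hP2⟩ := h1 n K M D hD (p1.trans hK) ((mul_le_mul_of_nonneg_left p1 hKK).trans hKn) al be hal hbe W f g hW hf hg hT
  obtain ⟨θ, hθ⟩ := h2 n K D hD hdiv (p2.trans hK) ((mul_le_mul_of_nonneg_left p2 hKK).trans hKn) (cut n g) (cut_norm hg)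
    (fun y hy => by unfold Pool.Agent.H44W.cut; rw [if_neg hy]) P hP hP2
  refine ⟨-θ, ?_⟩
  have e1 : ∑' y : ℤ, cut n g y * ee (-(θ * y)) = ∑ z ∈ Icc (1 : ℤ) n, g z * ee (-θ * z) := by
    rw [tsum_eq_sum (s := Icc (1 : ℤ) n)]
    · refine sum_congr rfl fun z hz => ?_
      unfold Pool.Agent.H44W.cut
      rw [if_pos hz, neg_mul]
    · intro y hy
      unfold Pool.Agent.H44W.cut
      rw [if_neg hy, zero_mul]
  rw [← e1]
  refine le_trans ?_ hθ
  exact div_le_div_of_nonneg_left (Nat.cast_nonneg _) (pow_pos hD0 _) p2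

end Pool.Agent.H3B
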